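import Pool.Agent.V1171.MLP.Est2

set_option autoImplicit false

/-! The function on the closed half-strip and its value at `α = 2`. -/

namespace V1171.MLP

open MeasureTheory Filter Topology Set Complex V1171.MLZ

/-- `ψ_α(τ ^ α)` -/
noncomputable def Fn (α τ : ℝ) : ℂ :=
  EE α 1 τ ^ 2 - cc α * ((τ ^ α : ℝ) : ℂ) * EE α 2 τ * EE α α τ

lemma Fn_psi {α τ : ℝ} (hτ : 0 < τ) : Fn α τ = psi α τ := by
  unfold Fn psi um
  have e1 : τ ^ (1 - 1 : ℝ) = 1 := by norm_num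
  have e2 : τ ^ (2 - 1 : ℝ) = τ := by norm_num
  have e3 : τ ^ α = τ * τ ^ (α - 1) := by
    rw [Real.rpow_sub_one hτ.ne']
    field_simp
  rw [e1, e2, e3]
  push_cast
  ring

lemma Fn_cont {a : ℝ} (ha : 1 ≤ a) :
    ContinuousOn (fun p : ℝ × ℝ => Fn p.1 p.2) (Icc a 2 ×ˢ Ici 0) := by
  rintro ⟨α, τ⟩ ⟨hα, hτ⟩
  simp only at hα hτ
  have hτ' : (0 : ℝ) ≤ τ := hτ
  have hα0 : (0 : ℝ) < α := by linarith [hα.1]
  have hE := EE_cont (M := τ + 1) (by linarith)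
  have key : ContinuousWithinAt (fun p : ℝ × ℝ => Fn p.1 p.2) (Icc a 2 ×ˢ Icc 0 (τ + 1))
      (α, τ) := by
    have hmem : ((α, τ) : ℝ × ℝ) ∈ Icc a 2 ×ˢ Icc 0 (τ + 1) := ⟨hα, hτ', by linarith⟩
    have c1 : ContinuousOn (fun p : ℝ × ℝ => EE p.1 1 p.2) (Icc a 2 ×ˢ Icc 0 (τ + 1)) :=
      hE.comp (f := fun p : ℝ × ℝ => (p.1, (1 : ℝ), p.2)) (by fun_prop)
        (fun p hp => ⟨⟨by linarith [hp.1.1], hp.1.2⟩, ⟨le_rfl, by norm_num⟩, hp.2⟩)
    have c2 : ContinuousOn (fun p : ℝ × ℝ => EE p.1 2 p.2) (Icc a 2 ×ˢ Icc 0 (τ + 1)) :=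
      hE.comp (f := fun p : ℝ × ℝ => (p.1, (2 : ℝ), p.2)) (by fun_prop)
        (fun p hp => ⟨⟨by linarith [hp.1.1], hp.1.2⟩, ⟨by norm_num, le_rfl⟩, hp.2⟩)
    have c3 : ContinuousOn (fun p : ℝ × ℝ => EE p.1 p.1 p.2) (Icc a 2 ×ˢ Icc 0 (τ + 1)) :=
      hE.comp (f := fun p : ℝ × ℝ => (p.1, p.1, p.2)) (by fun_prop)
        (fun p hp => ⟨⟨by linarith [hp.1.1], hp.1.2⟩, ⟨by linarith [hp.1.1], hp.1.2⟩, hp.2⟩)
    have c4 : ContinuousWithinAt (fun p : ℝ × ℝ => cc p.1 * ((p.2 ^ p.1 : ℝ) : ℂ))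
        (Icc a 2 ×ˢ Icc 0 (τ + 1)) (α, τ) := by
      apply ContinuousAt.continuousWithinAt
      apply ContinuousAt.mul
      · exact cc_cont.continuousAt.comp continuousAt_fst
      · apply Complex.continuous_ofReal.continuousAt.comp
        exact ContinuousAt.rpow continuousAt_snd continuousAt_fst (Or.inr hα0)
    unfold Fn
    exact ((c1 _ hmem).pow 2).sub ((c4.mul (c2 _ hmem)).mul (c3 _ hmem))
  refine key.mono_of_mem_nhdsWithin ?_
  have h5 : {p : ℝ × ℝ | p.2 < τ + 1} ∈ 𝓝 ((α, τ) : ℝ × ℝ) :=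
    (isOpen_lt continuous_snd continuous_const).mem_nhds (by simp)
  filter_upwards [self_mem_nhdsWithin, mem_nhdsWithin_of_mem_nhds h5] with p hp hp2
  exact ⟨hp.1, hp.2, le_of_lt hp2⟩

lemma cc_two : cc 2 = -1 := by
  unfold cc
  have : ((-(Real.pi * 2 / 2) : ℝ) : ℂ) * I = -(Real.pi * I) := by push_cast; ring
  rw [this, Complex.exp_neg, Complex.exp_pi_mul_I]
  norm_num

lemma EE_two_one (τ : ℝ) : EE 2 1 τ = Complex.cos τ := by
  rw [Complex.cos_eq_tsum]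
  unfold EE
  congr 1
  funext k
  unfold et
  rw [cc_two, Real.rpow_two]
  have : Real.Gamma (2 * k + 1) = ((2 * k).factorial : ℝ) := by
    have := Real.Gamma_nat_eq_factorial (2 * k)
    push_cast at this
    exact this
  rw [this]
  push_cast
  rw [neg_mul, one_mul, neg_pow, ← pow_mul, div_eq_mul_inv]

lemma EE_two_two (τ : ℝ) : (τ : ℂ) * EE 2 2 τ = Complex.sin τ := by
  rw [Complex.sin_eq_tsum]
  unfold EE
  rw [← tsum_mul_left]
  congr 1
  funext k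
  unfold et
  rw [cc_two, Real.rpow_two]
  have : Real.Gamma (2 * k + 2) = ((2 * k + 1).factorial : ℝ) := by
    have := Real.Gamma_nat_eq_factorial (2 * k + 1)
    push_cast at this
    rw [← this]
    congr 1
    ring
  rw [this]
  push_cast
  rw [neg_mul, one_mul, neg_pow, ← pow_mul, div_eq_mul_inv, pow_succ]
  ring

lemma Fn_two {τ : ℝ} : Fn 2 τ = 1 := by
  unfold Fn
  rw [EE_two_one, cc_two, Real.rpow_two]
  have h1 := EE_two_two τ
  have h2 := Complex.sin_sq_add_cos_sq (τ : ℂ)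
  rw [← h1] at h2
  push_cast
  linear_combination h2

lemma Fn_zero {α : ℝ} (hα : 0 < α) : Fn α 0 = 1 := by
  unfold Fn
  rw [Real.zero_rpow hα.ne']
  have : EE α 1 0 = 1 := by
    unfold EE
    rw [tsum_eq_single 0]
    · simp [et]
    · intro k hk
      unfold et
      rw [Real.zero_rpow hα.ne']
      simp [hk]
  rw [this]
  simp

end V1171.MLP
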