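import Pool.Agent.V1171.MLZ.Formula

set_option autoImplicit false

/-! Contour identity for `exp (γ z) / (exp (α z) - (-i)^α)`. -/

namespace V1171.MLP

open MeasureTheory Filter Topology Set Complex V1171.MLZ

noncomputable def cc (α : ℝ) : ℂ := cexp (((-(Real.pi * α / 2) : ℝ) : ℂ) * I)

lemma cc_norm (α : ℝ) : ‖cc α‖ = 1 := Complex.norm_exp_ofReal_mul_I _

lemma cc_ne (α : ℝ) : cc α ≠ 0 := Complex.exp_ne_zero _

noncomputable def dn (α : ℝ) (z : ℂ) : ℂ := cexp (α * z) - cc α

lemma dn_diff (α : ℝ) : Differentiable ℂ (dn α) := by unfold dn; fun_prop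

noncomputable def ph (α γ : ℝ) (z : ℂ) : ℂ := cexp (γ * z) * (dn α z)⁻¹

noncomputable def zm : ℂ := -((Real.pi / 2 : ℝ) * I)

lemma zm_exp (α : ℝ) : cexp (α * zm) = cc α := by
  unfold zm cc
  congr 1
  push_cast
  ring

lemma zt_exp {α θ : ℝ} (hθ : α * (θ + Real.pi / 2) = 2 * Real.pi) :
    cexp (α * (θ * I)) = cc α := by
  unfold cc
  rw [Complex.exp_eq_exp_iff_exists_int]
  refine ⟨1, ?_⟩
  have h : (α : ℂ) * (θ + Real.pi / 2) = 2 * Real.pi := by exact_mod_cast hθ
  push_cast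
  linear_combination I * h

lemma th_bd {α θ : ℝ} (h1 : 7 / 4 ≤ α) (h2 : α < 2) (hθ : α * (θ + Real.pi / 2) = 2 * Real.pi) :
    Real.pi / 2 < θ ∧ θ ≤ 9 * Real.pi / 14 := by
  have hpi := Real.pi_pos
  have h0 : 0 < θ + Real.pi / 2 := by
    by_contra hcon
    push Not at hcon
    nlinarith
  constructor
  · nlinarith
  · nlinarith

lemma dn_zero {α θ : ℝ} (h1 : 7 / 4 ≤ α) (h2 : α < 2) (hθ : α * (θ + Real.pi / 2) = 2 * Real.pi)
    {z : ℂ} (hz : |z.im| < 5 * Real.pi / 4) (h : dn α z = 0) : z = θ * I ∨ z = zm := by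
  have hpi := Real.pi_pos
  have hα : (0 : ℝ) < α := by linarith
  have h3 : cexp (α * z) = cc α := sub_eq_zero.mp h
  unfold cc at h3
  rw [Complex.exp_eq_exp_iff_exists_int] at h3
  obtain ⟨n, hn⟩ := h3
  have him := congrArg Complex.im hn
  have hre := congrArg Complex.re hn
  have him2 : α * z.im = -(Real.pi * α / 2) + n * (2 * Real.pi) := by
    simpa using him
  have hre2 : α * z.re = 0 := by simpa using hre
  have hre0 : z.re = 0 := by
    rcases mul_eq_zero.mp hre2 with h | h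
    · exact absurd h hα.ne'
    · exact h
  rw [abs_lt] at hz
  have hu : (n : ℝ) < 2 := by
    by_contra hcon
    push Not at hcon
    nlinarith [mul_pos hα hpi]
  have hl : (-1 : ℝ) < n := by
    by_contra hcon
    push Not at hcon
    nlinarith [mul_pos hα hpi]
  have hn0 : n = 0 ∨ n = 1 := by
    have h8 : n < 2 := by exact_mod_cast hu
    have h9 : -1 < n := by exact_mod_cast hl
    omega
  rcases hn0 with rfl | rfl
  · right
    apply Complex.ext
    · simp [hre0, zm]
    · have e : zm.im = -(Real.pi / 2) := by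
        unfold zm
        rw [Complex.neg_im, Complex.re_ofReal_mul |> fun _ => Complex.im_ofReal_mul]
        simp
      rw [e]
      push_cast at him2
      have : α * (z.im + Real.pi / 2) = 0 := by linear_combination him2
      rcases mul_eq_zero.mp this with h | h
      · linarith
      · linarith
  · left
    apply Complex.ext
    · simp [hre0]
    · have e : ((θ : ℂ) * I).im = θ := by simp
      rw [e]
      push_cast at him2
      have : α * (z.im - θ) = 0 := by linear_combination him2 - hθ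
      rcases mul_eq_zero.mp this with h | h
      · linarith
      · linarith

lemma dn_deriv (α : ℝ) (z : ℂ) : HasDerivAt (dn α) (α * cexp (α * z)) z := by
  unfold dn
  have h1 : HasDerivAt (fun z : ℂ => (α : ℂ) * z) α z := by
    simpa using (hasDerivAt_id z).const_mul (α : ℂ)
  exact (h1.cexp.sub_const _).congr_deriv (by ring)

lemma dn_right_norm {α : ℝ} (z : ℂ) : Real.exp (α * z.re) - 1 ≤ ‖dn α z‖ := by
  unfold dn
  have h1 := norm_sub_norm_le (cexp (α * z)) (cc α)
  rw [Complex.norm_exp, cc_norm] at h1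
  simpa using h1

lemma dn_left_norm {α : ℝ} (z : ℂ) : 1 - Real.exp (α * z.re) ≤ ‖dn α z‖ := by
  unfold dn
  have h1 := norm_sub_norm_le (cc α) (cexp (α * z))
  rw [Complex.norm_exp, cc_norm, norm_sub_rev] at h1
  simpa using h1

lemma ph_right {α γ : ℝ} (h1 : 7 / 4 ≤ α) (hγ2 : γ ≤ α) {z : ℂ} (hz : 1 ≤ z.re) :
    ‖ph α γ z‖ ≤ 2 := by
  unfold ph
  have h := dn_right_norm (α := α) z
  have e2 : (2 : ℝ) ≤ Real.exp (α * z.re) := by
    have := Real.add_one_le_exp (α * z.re)
    nlinarith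
  have hpos : 0 < Real.exp (α * z.re) - 1 := by linarith
  rw [norm_mul, norm_inv, Complex.norm_exp, ← div_eq_mul_inv, div_le_iff₀ (hpos.trans_le h)]
  have e3 : ((γ : ℂ) * z).re = γ * z.re := by simp
  rw [e3]
  have e4 : Real.exp (γ * z.re) ≤ Real.exp (α * z.re) := by
    rw [Real.exp_le_exp]
    nlinarith
  linarith

lemma ph_left {α γ : ℝ} (h1 : 7 / 4 ≤ α) {z : ℂ} (hz : z.re ≤ -1) :
    ‖ph α γ z‖ ≤ 2 * Real.exp (γ * z.re) := by
  unfold ph
  have h := dn_left_norm (α := α) z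
  have e2 : Real.exp (α * z.re) ≤ 1 / 2 := by
    have h3 := Real.add_one_le_exp (-(α * z.re))
    have h4 : Real.exp (α * z.re) * Real.exp (-(α * z.re)) = 1 := by
      rw [← Real.exp_add]; simp
    have h5 := Real.exp_pos (α * z.re)
    have h6 : (2 : ℝ) ≤ Real.exp (-(α * z.re)) := by nlinarith
    have h7 := mul_le_mul_of_nonneg_left h6 h5.le
    linarith
  rw [norm_mul, norm_inv, Complex.norm_exp, ← div_eq_mul_inv, div_le_iff₀ (by linarith)]
  have e3 : ((γ : ℂ) * z).re = γ * z.re := by simp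
  rw [e3]
  have := Real.exp_pos (γ * z.re)
  nlinarith

noncomputable def Gq (α γ x θ : ℝ) (A r1 r0 : ℂ) (z : ℂ) : ℂ :=
  (ph α γ z - A) * (Kd x z)⁻¹ + r1 * (Kd (θ * I) z)⁻¹ + r0 * (Kd zm z)⁻¹

lemma Gq_meas (α γ x θ : ℝ) (A r1 r0 : ℂ) : Measurable (Gq α γ x θ A r1 r0) := by
  unfold Gq
  have h1 : Measurable (ph α γ) := by
    unfold ph
    have h3 := (dn_diff α).continuous.measurable.inv
    have h4 : Measurable fun z : ℂ => cexp (γ * z) := by fun_prop
    exact h4.mul h3
  have h2 := fun a => (Kd_diff a).continuous.measurable.inv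
  exact (((h1.sub_const A).mul (h2 _)).add ((h2 _).const_mul r1)).add ((h2 _).const_mul r0)

lemma Gq_norm (α γ x θ : ℝ) (A r1 r0 : ℂ) (z : ℂ) (h1 : ‖ph α γ z‖ ≤ 2)
    (h2 : ‖(Kd x z)⁻¹‖ ≤ 2) (h3 : ‖(Kd (θ * I) z)⁻¹‖ ≤ 2)
    (h4 : ‖(Kd zm z)⁻¹‖ ≤ 2) :
    ‖Gq α γ x θ A r1 r0 z‖ ≤ (2 + ‖A‖) * 2 + ‖r1‖ * 2 + ‖r0‖ * 2 := by
  unfold Gq
  refine (norm_add_le _ _).trans (add_le_add ((norm_add_le _ _).trans (add_le_add ?_ ?_)) ?_)
  · rw [norm_mul]
    refine mul_le_mul ((norm_sub_le _ _).trans (by linarith)) h2 (norm_nonneg _) (by positivity)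
  · rw [norm_mul]
    exact mul_le_mul_of_nonneg_left h3 (norm_nonneg _)
  · rw [norm_mul]
    exact mul_le_mul_of_nonneg_left h4 (norm_nonneg _)

lemma Kd_r2 (a : ℂ) {z : ℂ} (h : a.re + 1 ≤ z.re) : ‖(Kd a z)⁻¹‖ ≤ 2 := by
  have h' : (1 : ℝ) ≤ ‖Kd a z‖ := by
    refine le_trans ?_ (Kd_right_norm a z)
    apply one_le_of_one_le
    linarith
  refine (inv_norm_le one_pos h').trans (by norm_num)

lemma Kd_l2 (a : ℂ) {z : ℂ} (h : z.re + 1 ≤ a.re) : ‖(Kd a z)⁻¹‖ ≤ 2 := by
  have h' : (1 / 2 : ℝ) ≤ ‖Kd a z‖ := by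
    refine le_trans ?_ (Kd_left_norm a z)
    have h5 := exp_neg_one_le (t := a.re - z.re) (by linarith)
    refine h5.trans (le_of_eq ?_)
    ring_nf
  refine (inv_norm_le (by norm_num) h').trans (by norm_num)

lemma zm_re : zm.re = 0 := by simp [zm]

lemma zm_im : zm.im = -(Real.pi / 2) := by
  unfold zm
  rw [Complex.neg_im, Complex.im_ofReal_mul]
  simp

lemma Gq_right {α γ : ℝ} (h1 : 7 / 4 ≤ α) (hγ2 : γ ≤ α) (x θ : ℝ) (A r1 r0 : ℂ) :
    Tendsto (fun R : ℝ => ∫ v in (-Real.pi)..Real.pi, Gq α γ x θ A r1 r0 (R + v * I)) atTop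
      (𝓝 0) := by
  have e0 : (0 : ℂ) = ∫ _ in (-Real.pi)..Real.pi, (0 : ℂ) := by simp
  rw [e0]
  apply intervalIntegral.tendsto_integral_filter_of_dominated_convergence
    (fun _ => (2 + ‖A‖) * 2 + ‖r1‖ * 2 + ‖r0‖ * 2)
  · refine Eventually.of_forall fun R => ?_
    exact ((Gq_meas α γ x θ A r1 r0).comp (by fun_prop)).aestronglyMeasurable
  · filter_upwards [eventually_ge_atTop (2 : ℝ), eventually_ge_atTop (x + 1)] with R hR2 hRx
    refine Eventually.of_forall fun v _ => ?_
    apply Gq_norm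
    · exact ph_right h1 hγ2 (by simp; linarith)
    · exact Kd_r2 _ (by simp; linarith)
    · exact Kd_r2 _ (by simp; linarith)
    · exact Kd_r2 _ (by rw [zm_re]; simp; linarith)
  · simp
  · refine Eventually.of_forall fun v _ => ?_
    have hk : Tendsto (fun R : ℝ => (ph α γ (R + v * I) - A) * (Kd x (R + v * I))⁻¹) atTop
        (𝓝 0) := by
      have h3 := ((Kd_right_tendsto (x : ℂ) v).norm.const_mul (2 + ‖A‖))
      rw [norm_zero, mul_zero] at h3
      rw [tendsto_zero_iff_norm_tendsto_zero]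
      refine squeeze_zero' (Eventually.of_forall fun _ => norm_nonneg _) ?_ h3
      filter_upwards [eventually_ge_atTop (2 : ℝ)] with R hR
      rw [norm_mul]
      apply mul_le_mul_of_nonneg_right _ (norm_nonneg _)
      refine (norm_sub_le _ _).trans ?_
      have := ph_right h1 hγ2 (z := R + v * I) (by simp; linarith)
      linarith
    have := (hk.add ((Kd_right_tendsto (θ * I) v).const_mul r1)).add
      ((Kd_right_tendsto zm v).const_mul r0)
    simpa [Gq] using this

lemma Gq_left {α γ : ℝ} (h1 : 7 / 4 ≤ α) (hγ : 0 < γ) (x θ : ℝ) (A r1 r0 : ℂ) :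
    Tendsto (fun R : ℝ => ∫ v in (-Real.pi)..Real.pi, Gq α γ x θ A r1 r0 (-R + v * I)) atTop
      (𝓝 (2 * Real.pi * (r1 + r0 - A))) := by
  have e0 : (2 * Real.pi * (r1 + r0 - A)) = ∫ _ in (-Real.pi)..Real.pi, (r1 + r0 - A) := by
    simp only [intervalIntegral.integral_const, Complex.real_smul]
    push_cast
    ring
  rw [e0]
  apply intervalIntegral.tendsto_integral_filter_of_dominated_convergence
    (fun _ => (2 + ‖A‖) * 2 + ‖r1‖ * 2 + ‖r0‖ * 2)
  · refine Eventually.of_forall fun R => ?_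
    exact ((Gq_meas α γ x θ A r1 r0).comp (by fun_prop)).aestronglyMeasurable
  · filter_upwards [eventually_ge_atTop (2 : ℝ), eventually_ge_atTop (-x + 1)] with R hR2 hRx
    refine Eventually.of_forall fun v _ => ?_
    apply Gq_norm
    · refine (ph_left h1 (by simp; linarith)).trans ?_
      have : Real.exp (γ * ((-(R : ℂ) + v * I)).re) ≤ 1 := by
        rw [Real.exp_le_one_iff]
        simp
        nlinarith
      linarith
    · exact Kd_l2 _ (by simp; linarith)
    · exact Kd_l2 _ (by simp; linarith)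
    · exact Kd_l2 _ (by rw [zm_re]; simp; linarith)
  · simp
  · refine Eventually.of_forall fun v _ => ?_
    have hph : Tendsto (fun R : ℝ => ph α γ (-R + v * I)) atTop (𝓝 0) := by
      rw [tendsto_zero_iff_norm_tendsto_zero]
      have h3 : Tendsto (fun R : ℝ => 2 * Real.exp (-(γ * R))) atTop (𝓝 0) := by
        have := (Real.tendsto_exp_neg_atTop_nhds_zero.comp
          (tendsto_id.const_mul_atTop hγ)).const_mul 2
        simpa [Function.comp_def] using this
      refine squeeze_zero' (Eventually.of_forall fun _ => norm_nonneg _) ?_ h3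
      filter_upwards [eventually_ge_atTop (2 : ℝ)] with R hR
      refine (ph_left h1 (by simp; linarith)).trans (le_of_eq ?_)
      congr 2
      simp
    have := (((hph.sub_const A).mul (Kd_left_tendsto x v)).add
      ((Kd_left_tendsto (θ * I) v).const_mul r1)).add
      ((Kd_left_tendsto zm v).const_mul r0)
    have e : (0 - A) * 1 + r1 * 1 + r0 * 1 = r1 + r0 - A := by ring
    rw [e] at this
    simpa [Gq] using this

end V1171.MLP
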