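import Pool.Agent.V1171.MLP.Ctr

set_option autoImplicit false

/-! Contour identity, second part. -/

namespace V1171.MLP

open MeasureTheory Filter Topology Set Complex V1171.MLZ

/-- jump of `ph` across the negative axis -/
noncomputable def kq (α γ y : ℝ) : ℂ := ph α γ (y - Real.pi * I) - ph α γ (y + Real.pi * I)

lemma Gq_hor (α γ x θ : ℝ) (A r1 r0 : ℂ) (y : ℝ) :
    Gq α γ x θ A r1 r0 (y - Real.pi * I) - Gq α γ x θ A r1 r0 (y + Real.pi * I) =
      kq α γ y * (((1 + Real.exp (y - x))⁻¹ : ℝ) : ℂ) := by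
  unfold Gq kq
  rw [Kd_per, Kd_per, Kd_per, Kd_real x y]
  push_cast
  ring

lemma abs_th {α θ : ℝ} (h1 : 7 / 4 ≤ α) (h2 : α < 2) (hθ : α * (θ + Real.pi / 2) = 2 * Real.pi) :
    |((θ : ℂ) * I).im| ≤ 3 * Real.pi / 4 := by
  have h := th_bd h1 h2 hθ
  have hpi := Real.pi_pos
  have hθ0 : 0 < θ := by linarith [h.1]
  simp [abs_of_pos hθ0]
  linarith [h.2]

lemma abs_zm : |zm.im| ≤ 3 * Real.pi / 4 := by
  have hpi := Real.pi_pos
  rw [zm_im, abs_neg, abs_of_pos (by positivity)]
  linarith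

lemma Gq_diff {α γ θ : ℝ} (h1 : 7 / 4 ≤ α) (h2 : α < 2)
    (hθ : α * (θ + Real.pi / 2) = 2 * Real.pi) (x : ℝ) (A r1 r0 : ℂ) :
    DifferentiableOn ℂ (Gq α γ x θ A r1 r0) ({z : ℂ | |z.im| < 5 * Real.pi / 4} \
      (({(x : ℂ), θ * I, zm} : Finset ℂ) : Set ℂ)) := by
  have hpi := Real.pi_pos
  have ht1 := abs_th h1 h2 hθ
  have ht2 := abs_zm
  rintro z ⟨hz, hzS⟩
  simp only [Finset.coe_insert, Finset.coe_singleton, mem_insert_iff, mem_singleton_iff,
    not_or] at hzS
  obtain ⟨hzx, hzp, hzm⟩ := hzS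
  have hd : dn α z ≠ 0 := by
    intro h
    rcases dn_zero h1 h2 hθ hz h with h | h
    · exact hzp h
    · exact hzm h
  have hk1 : Kd x z ≠ 0 := fun h => hzx (Kd_zero (by simp; positivity) hz h)
  have hk2 : Kd (θ * I) z ≠ 0 := fun h => hzp (Kd_zero ht1 hz h)
  have hk3 : Kd zm z ≠ 0 := fun h => hzm (Kd_zero ht2 hz h)
  apply DifferentiableAt.differentiableWithinAt
  unfold Gq ph
  have he : DifferentiableAt ℂ (fun z : ℂ => cexp (γ * z)) z := by fun_prop
  exact (((((he.fun_mul ((dn_diff α z).fun_inv hd))).sub_const A).fun_mul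
    ((Kd_diff _ z).fun_inv hk1)).fun_add
    (((Kd_diff _ z).fun_inv hk2).const_mul r1)).fun_add (((Kd_diff _ z).fun_inv hk3).const_mul r0)

lemma dn_cont (α : ℝ) {z : ℂ} (h : dn α z ≠ 0) : ContinuousAt (fun z => (dn α z)⁻¹) z :=
  (dn_diff α).continuous.continuousAt.inv₀ h

lemma dn_ne_real {α θ : ℝ} (h1 : 7 / 4 ≤ α) (h2 : α < 2)
    (hθ : α * (θ + Real.pi / 2) = 2 * Real.pi) (x : ℝ) : dn α x ≠ 0 := by
  have hpi := Real.pi_pos
  have hb := th_bd h1 h2 hθ
  intro h
  rcases dn_zero h1 h2 hθ (by simp; positivity) h with h | h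
  · have := congrArg Complex.im h
    simp at this
    linarith [hb.1]
  · have := congrArg Complex.im h
    rw [zm_im] at this
    simp at this

lemma ph_cont (α γ : ℝ) {z : ℂ} (h : dn α z ≠ 0) : ContinuousAt (ph α γ) z := by
  unfold ph
  exact ContinuousAt.mul (by fun_prop) (dn_cont α h)

lemma Gq_lim_x {α γ θ : ℝ} (h1 : 7 / 4 ≤ α) (h2 : α < 2)
    (hθ : α * (θ + Real.pi / 2) = 2 * Real.pi) (x : ℝ) (r1 r0 : ℂ) :
    Tendsto (fun z => (z - x) * Gq α γ x θ (ph α γ x) r1 r0 z) (𝓝[≠] (x : ℂ)) (𝓝 0) := by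
  have hpi := Real.pi_pos
  have hb := th_bd h1 h2 hθ
  have hx : |(x : ℂ).im| < 5 * Real.pi / 4 := by simp; positivity
  have hk2 : Kd (θ * I) x ≠ 0 := fun h => by
    have := congrArg Complex.im (Kd_zero (abs_th h1 h2 hθ) hx h)
    simp at this
    linarith [hb.1]
  have hk3 : Kd zm x ≠ 0 := fun h => by
    have := congrArg Complex.im (Kd_zero abs_zm hx h)
    rw [zm_im] at this
    simp at this
  have t1 := lim_mul (fun z => ph α γ z - ph α γ x) (Kd x) x (-1)
    ((ph_cont α γ (dn_ne_real h1 h2 hθ x)).sub_const _) (Kd_deriv x) (Kd_self x) (by norm_num)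
  have t2 := lim_zero (fun z => r1 * (Kd (θ * I) z)⁻¹ + r0 * (Kd zm z)⁻¹) x
    (((Kd_cont _ hk2).const_mul r1).add ((Kd_cont _ hk3).const_mul r0))
  have t3 := t1.add t2
  simp only [sub_self, zero_mul, add_zero] at t3
  refine t3.congr fun z => ?_
  unfold Gq
  ring

/-- limits at a simple pole `p` of `ph`, the other being `p'` -/
lemma pole_lim {α γ : ℝ} (h1 : 7 / 4 ≤ α) (x : ℝ) (A r' : ℂ) (p p' : ℂ)
    (hp : cexp (α * p) = cc α) (hk1 : Kd x p ≠ 0) (hk3 : Kd p' p ≠ 0) :
    Tendsto (fun z => (z - p) * ((ph α γ z - A) * (Kd x z)⁻¹ +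
      (Kd x p)⁻¹ * (cexp (γ * p) * (α * cc α)⁻¹) * (Kd p z)⁻¹ + r' * (Kd p' z)⁻¹))
      (𝓝[≠] p) (𝓝 0) := by
  have hα : (0 : ℝ) < α := by linarith
  have hd : HasDerivAt (dn α) (α * cc α) p := by
    refine (dn_deriv α p).congr_deriv ?_
    rw [hp]
  have hd0 : dn α p = 0 := by
    unfold dn
    rw [hp, sub_self]
  have hαc : (α * cc α : ℂ) ≠ 0 := mul_ne_zero (by exact_mod_cast hα.ne') (cc_ne α)
  have t1 := lim_mul (fun z => cexp (γ * z) * (Kd x z)⁻¹) (dn α) p (α * cc α)
    (ContinuousAt.mul (by fun_prop) (Kd_cont _ hk1)) hd hd0 hαc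
  have t2 := lim_zero (fun z => -A * (Kd x z)⁻¹ + r' * (Kd p' z)⁻¹) p
    (((Kd_cont _ hk1).const_mul (-A)).add ((Kd_cont _ hk3).const_mul r'))
  have t3 := lim_mul (fun _ => (Kd x p)⁻¹ * (cexp (γ * p) * (α * cc α)⁻¹)) (Kd p) p (-1)
    continuousAt_const (Kd_deriv _) (Kd_self _) (by norm_num)
  have t4 := (t1.add t2).add t3
  have e : cexp (γ * p) * (Kd x p)⁻¹ * (α * cc α)⁻¹ + 0 +
      (Kd x p)⁻¹ * (cexp (γ * p) * (α * cc α)⁻¹) * (-1)⁻¹ = 0 := by
    norm_num
    ring
  rw [e] at t4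
  refine t4.congr fun z => ?_
  unfold ph
  ring

theorem contour_c {α γ θ : ℝ} (h1 : 7 / 4 ≤ α) (h2 : α < 2)
    (hθ : α * (θ + Real.pi / 2) = 2 * Real.pi) (hγ : 0 < γ) (hγ2 : γ ≤ α)
    (hint : Integrable (kq α γ)) (x : ℝ) :
    (∫ y : ℝ, kq α γ y * (((1 + Real.exp (y - x))⁻¹ : ℝ) : ℂ)) =
      I * (2 * Real.pi * ((Kd x (θ * I))⁻¹ * (cexp (γ * (θ * I)) * (α * cc α)⁻¹) +
        (Kd x zm)⁻¹ * (cexp (γ * zm) * (α * cc α)⁻¹) - ph α γ x)) := by
  have hpi := Real.pi_pos
  have hb := th_bd h1 h2 hθ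
  have hθ0 : 0 < θ := by linarith [hb.1]
  set A := ph α γ x with hA
  set r1 := (Kd x (θ * I))⁻¹ * (cexp (γ * (θ * I)) * (α * cc α)⁻¹) with hr1
  set r0 := (Kd x zm)⁻¹ * (cexp (γ * zm) * (α * cc α)⁻¹) with hr0
  set G := Gq α γ x θ A r1 r0 with hG
  have hGd := Gq_diff (γ := γ) h1 h2 hθ x A r1 r0
  have hx : ∀ p : ℂ, |p.im| ≤ 3 * Real.pi / 4 → p.im ≠ 0 → Kd x p ≠ 0 := by
    intro p hp hp0 h
    have := congrArg Complex.im (Kd_zero (a := (x : ℂ)) (by simp; positivity)
      (lt_of_le_of_lt hp (by linarith)) h)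
    simp at this
    exact hp0 this
  have hi1 : ((θ : ℂ) * I).im = θ := by simp
  have hk13 : Kd zm (θ * I) ≠ 0 := fun h => by
    have := congrArg Complex.im (Kd_zero abs_zm
      (lt_of_le_of_lt (abs_th h1 h2 hθ) (by linarith)) h)
    rw [hi1, zm_im] at this
    linarith
  have hk31 : Kd (θ * I) zm ≠ 0 := fun h => by
    have := congrArg Complex.im (Kd_zero (abs_th h1 h2 hθ)
      (lt_of_le_of_lt abs_zm (by linarith)) h)
    rw [hi1, zm_im] at this
    linarith
  have hkx1 : Kd x (θ * I) ≠ 0 := hx _ (abs_th h1 h2 hθ) (by rw [hi1]; exact hθ0.ne')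
  have hkx3 : Kd x zm ≠ 0 := hx _ abs_zm (by rw [zm_im]; intro h; linarith)
  have key : ∀ R : ℝ, |x| < R →
      (∫ y in (-R)..R, kq α γ y * (((1 + Real.exp (y - x))⁻¹ : ℝ) : ℂ)) +
      I * (∫ v in (-Real.pi)..Real.pi, G (R + v * I)) -
      I * (∫ v in (-Real.pi)..Real.pi, G (-R + v * I)) = 0 := by
    intro R hR
    have hR0 : 0 < R := (abs_nonneg x).trans_lt hR
    have h := rect_zero ({(x : ℂ), θ * I, zm} : Finset ℂ) (5 * Real.pi / 4) R hR0
      (by linarith) G hGd
      (by
        intro c hc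
        simp only [Finset.mem_insert, Finset.mem_singleton] at hc
        rcases hc with rfl | rfl | rfl
        · exact Gq_lim_x h1 h2 hθ x r1 r0
        · exact pole_lim h1 x A r0 (θ * I) zm (zt_exp hθ) hkx1 hk13
        · refine (pole_lim (γ := γ) h1 x A r1 zm (θ * I) (zm_exp α) hkx3 hk31).congr fun z => ?_
          rw [hG]
          unfold Gq
          rw [hr0]
          ring)
      (by
        intro c hc
        simp only [Finset.mem_insert, Finset.mem_singleton] at hc
        rcases hc with rfl | rfl | rfl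
        · simpa using ⟨hR, hpi⟩
        · simp [abs_of_pos hθ0, hR0]
          linarith [hb.2]
        · rw [zm_re, zm_im, abs_zero, abs_neg, abs_of_pos (by positivity)]
          exact ⟨hR0, by linarith⟩)
    have hc1 : Continuous fun y : ℝ => G (y - Real.pi * I) := by
      refine hGd.continuousOn.comp_continuous (by fun_prop) fun y => ?_
      refine ⟨?_, ?_⟩
      · simp [abs_of_pos hpi]
        linarith
      · intro hm
        simp only [Finset.coe_insert, Finset.coe_singleton, mem_insert_iff,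
          mem_singleton_iff] at hm
        rcases hm with hm | hm | hm
        · have := congrArg Complex.im hm
          simp at this
        · have := congrArg Complex.im hm
          simp at this
          linarith
        · have := congrArg Complex.im hm
          rw [zm_im] at this
          simp at this
          linarith [hb.2]
    have hc2 : Continuous fun y : ℝ => G (y + Real.pi * I) := by
      refine hGd.continuousOn.comp_continuous (by fun_prop) fun y => ?_
      refine ⟨?_, ?_⟩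
      · simp [abs_of_pos hpi]
        linarith
      · intro hm
        simp only [Finset.coe_insert, Finset.coe_singleton, mem_insert_iff,
          mem_singleton_iff] at hm
        rcases hm with hm | hm | hm
        · have := congrArg Complex.im hm
          simp at this
        · have := congrArg Complex.im hm
          simp at this
          linarith [hb.2]
        · have := congrArg Complex.im hm
          rw [zm_im] at this
          simp at this
          linarith [hb.2]
    rw [← intervalIntegral.integral_sub (hc1.intervalIntegrable _ _)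
      (hc2.intervalIntegrable _ _)] at h
    rw [intervalIntegral.integral_congr (g := fun y : ℝ => G (y - Real.pi * I) - G (y + Real.pi * I))
      (fun y _ => (Gq_hor α γ x θ A r1 r0 y).symm)]
    exact h
  have hint2 : Integrable fun y : ℝ => kq α γ y * (((1 + Real.exp (y - x))⁻¹ : ℝ) : ℂ) := by
    apply hint.mul_bdd (c := 1)
    · apply Continuous.aestronglyMeasurable
      apply Complex.continuous_ofReal.comp
      apply Continuous.inv₀
      · exact continuous_const.add (Real.continuous_exp.comp (by fun_prop))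
      · intro y
        positivity
    · refine Eventually.of_forall fun y => ?_
      rw [Complex.norm_real, Real.norm_of_nonneg (by positivity)]
      apply inv_le_one_of_one_le₀
      have := Real.exp_pos (y - x)
      linarith
  have T1 := intervalIntegral_tendsto_integral hint2 tendsto_neg_atTop_atBot tendsto_id
  have T2 := (Gq_right h1 hγ2 x θ A r1 r0).const_mul I
  have T3 := (Gq_left h1 hγ x θ A r1 r0).const_mul I
  have T4 := (T1.add T2).sub T3
  have T5 : Tendsto (fun _ : ℝ => (0 : ℂ)) atTop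
      (𝓝 ((∫ y : ℝ, kq α γ y * (((1 + Real.exp (y - x))⁻¹ : ℝ) : ℂ)) + I * 0 -
        I * (2 * Real.pi * (r1 + r0 - A)))) := by
    refine T4.congr' ?_
    filter_upwards [eventually_gt_atTop |x|] with R hR
    exact key R hR
  have h := tendsto_nhds_unique T5 tendsto_const_nhds
  linear_combination h

end V1171.MLP
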