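import Pool.Agent.V1171.MLZ.Topo

set_option autoImplicit false

/-! A winding argument on a half-strip. -/

namespace V1171.MLP

open Filter Topology Set Complex V1171.MLZ

noncomputable def ell (z : ℂ) : ℝ := 2 * z.re + z.im

lemma ell_exp (w : ℂ) : ell (cexp w) = Real.exp w.re * (2 * Real.cos w.im + Real.sin w.im) := by
  unfold ell
  rw [Complex.exp_re, Complex.exp_im]
  ring

theorem no_lift (F : ℝ → ℝ → ℂ) (a : ℝ) (ha : a < 2)
    (hF : ContinuousOn (fun p : ℝ × ℝ => F p.1 p.2) (Icc a 2 ×ˢ Ici 0))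
    (h2 : ∀ τ, 0 ≤ τ → F 2 τ = 1)
    (hnz : ∀ α ∈ Icc a 2, ∀ τ, 0 ≤ τ → F α τ ≠ 0)
    (htop : ∀ᶠ m : ℕ in atTop, ∀ α ∈ Icc a 2, 0 < ell (F α (2 * Real.pi * m)))
    (hleft : ∀ᶠ τ : ℝ in atTop, 0 < ell (F a τ * cexp (I * τ))) : False := by
  have hpi := Real.pi_pos
  set c : ℝ × ℝ → ℝ × ℝ := fun p => ((projIcc a 2 ha.le p.1 : ℝ), max p.2 0) with hc
  have hcc : Continuous c := by
    apply Continuous.prodMk
    · exact continuous_subtype_val.comp (continuous_projIcc.comp continuous_fst)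
    · exact continuous_snd.max continuous_const
  have hcm : ∀ p, c p ∈ Icc a 2 ×ˢ Ici (0 : ℝ) := fun p =>
    ⟨(projIcc a 2 ha.le p.1).2, mem_Ici.mpr (le_max_right _ _)⟩
  have hce : ∀ α ∈ Icc a 2, ∀ τ, 0 ≤ τ → c (α, τ) = (α, τ) := by
    intro α hα τ hτ
    rw [hc]
    simp only
    rw [projIcc_of_mem _ hα, max_eq_left hτ]
  have hG : Continuous fun p : ℝ × ℝ => F (c p).1 (c p).2 :=
    hF.comp_continuous hcc hcm
  have hm2 : (2 : ℝ) ∈ Icc a 2 := ⟨ha.le, le_refl _⟩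
  have hma : a ∈ Icc a 2 := ⟨le_refl _, ha.le⟩
  obtain ⟨L, ⟨hL0, hL⟩, -⟩ := Complex.isCoveringMapOn_exp.existsUnique_continuousMap_lifts
    (⟨fun p : ℝ × ℝ => F (c p).1 (c p).2, hG⟩ : C(ℝ × ℝ, ℂ)) (a₀ := (2, 0)) (e₀ := 0)
    (by
      simp only [ContinuousMap.coe_mk]
      rw [hce 2 hm2 0 le_rfl, Complex.exp_zero, h2 0 le_rfl])
    (by
      intro p
      exact hnz _ (hcm p).1 _ (hcm p).2)
  have hLe : ∀ α ∈ Icc a 2, ∀ τ, 0 ≤ τ → cexp (L (α, τ)) = F α τ := by
    intro α hα τ hτ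
    have := congrFun hL (α, τ)
    simp only [Function.comp, ContinuousMap.coe_mk] at this
    rw [this, hce α hα τ hτ]
  have hLc : Continuous L := L.continuous
  have e1 : ∀ T, 0 ≤ T → (L (2, T)).im = 0 := by
    intro T hT
    have := int_const (fun t => ((L (2, t)).im) / (2 * Real.pi)) (by fun_prop) 0 T (by
      intro t ht
      rw [uIcc_of_le hT] at ht
      have h := hLe 2 hm2 t ht.1
      rw [h2 t ht.1, Complex.exp_eq_one_iff] at h
      obtain ⟨n, hn⟩ := h
      refine ⟨n, ?_⟩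
      rw [hn]
      simp)
    simp only [hL0, zero_im, zero_div] at this
    have h5 := this.symm
    rw [div_eq_zero_iff] at h5
    rcases h5 with h5 | h5
    · linarith
    · exfalso; linarith
  have cpos : ∀ α ∈ Icc a 2, ∀ τ, 0 ≤ τ → 0 < ell (F α τ) →
      0 < 2 * Real.cos (L (α, τ)).im + Real.sin (L (α, τ)).im := by
    intro α hα τ hτ h
    rw [← hLe α hα τ hτ, ell_exp] at h
    exact (mul_pos_iff_of_pos_left (Real.exp_pos _)).mp h
  have e2 : ∀ m : ℕ, (∀ α ∈ Icc a 2, 0 < ell (F α (2 * Real.pi * m))) →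
      -Real.pi < (L (a, 2 * Real.pi * m)).im ∧ (L (a, 2 * Real.pi * m)).im < Real.pi := by
    intro m hm
    have hτ : 0 ≤ 2 * Real.pi * m := by positivity
    have hiv := intermediate_value_uIcc (a := a) (b := 2)
      (f := fun t => (L (t, 2 * Real.pi * m)).im) (Continuous.continuousOn (by fun_prop))
    have h20 := e1 _ hτ
    constructor
    · by_contra hcon
      push Not at hcon
      have hmem : -Real.pi ∈ uIcc ((L (a, 2 * Real.pi * m)).im) ((L (2, 2 * Real.pi * m)).im) := by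
        rw [h20, uIcc_of_le (by linarith)]
        constructor <;> linarith
      obtain ⟨t, ht, ht2⟩ := hiv hmem
      rw [uIcc_of_le ha.le] at ht
      simp only at ht2
      have := cpos t ht _ hτ (hm t ht)
      rw [ht2, Real.cos_neg, Real.sin_neg, Real.cos_pi, Real.sin_pi] at this
      linarith
    · by_contra hcon
      push Not at hcon
      have hmem : Real.pi ∈ uIcc ((L (a, 2 * Real.pi * m)).im) ((L (2, 2 * Real.pi * m)).im) := by
        rw [h20, uIcc_of_ge (by linarith)]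
        constructor <;> linarith
      obtain ⟨t, ht, ht2⟩ := hiv hmem
      rw [uIcc_of_le ha.le] at ht
      simp only at ht2
      have := cpos t ht _ hτ (hm t ht)
      rw [ht2, Real.cos_pi, Real.sin_pi] at this
      linarith
  have hleft2 : ∀ᶠ m : ℕ in atTop, ∀ τ : ℝ, 2 * Real.pi * m ≤ τ → 0 < ell (F a τ * cexp (I * τ)) := by
    obtain ⟨T, hT⟩ := eventually_atTop.mp hleft
    have h3 : Tendsto (fun m : ℕ => 2 * Real.pi * (m : ℝ)) atTop atTop :=
      tendsto_natCast_atTop_atTop.const_mul_atTop (by positivity)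
    filter_upwards [h3.eventually_ge_atTop T] with m hm τ hτ
    exact hT τ (hm.trans hτ)
  have htop2 : ∀ᶠ m : ℕ in atTop, ∀ α ∈ Icc a 2, 0 < ell (F α (2 * Real.pi * ((m + 1 : ℕ) : ℝ))) :=
    (tendsto_add_atTop_nat 1).eventually htop
  obtain ⟨m, hm1, hm2', hm3⟩ := (htop.and (htop2.and hleft2)).exists
  obtain ⟨b1, b2⟩ := e2 m hm1
  obtain ⟨b3, b4⟩ := e2 (m + 1) hm2'
  have hτ : 0 ≤ 2 * Real.pi * m := by positivity
  have hle : 2 * Real.pi * (m : ℝ) ≤ 2 * Real.pi * ((m + 1 : ℕ) : ℝ) := by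
    push_cast
    nlinarith
  have hiv := intermediate_value_uIcc (a := 2 * Real.pi * (m : ℝ))
      (b := 2 * Real.pi * ((m + 1 : ℕ) : ℝ))
      (f := fun t => (L (a, t)).im + t) (Continuous.continuousOn (by fun_prop))
  have hmem : (m : ℝ) * (2 * Real.pi) + Real.pi ∈
      uIcc ((L (a, 2 * Real.pi * (m : ℝ))).im + 2 * Real.pi * (m : ℝ))
      ((L (a, 2 * Real.pi * ((m + 1 : ℕ) : ℝ))).im + 2 * Real.pi * ((m + 1 : ℕ) : ℝ)) := by
    push_cast at b3 b4 ⊢
    rw [uIcc_of_le (by nlinarith)]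
    constructor <;> nlinarith
  obtain ⟨t, ht, ht2⟩ := hiv hmem
  rw [uIcc_of_le hle] at ht
  simp only at ht2
  have h6 := hm3 t ht.1
  have ht0 : 0 ≤ t := hτ.trans ht.1
  rw [← hLe a hma t ht0, ← Complex.exp_add, ell_exp] at h6
  have h7 := (mul_pos_iff_of_pos_left (Real.exp_pos _)).mp h6
  have e5 : (L (a, t) + I * t).im = (m : ℝ) * (2 * Real.pi) + Real.pi := by
    rw [← ht2]
    simp
  rw [e5, Real.cos_add_pi, Real.sin_add_pi, Real.cos_nat_mul_two_pi] at h7
  have e6 : Real.sin ((m : ℝ) * (2 * Real.pi)) = 0 := by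
    have := Real.sin_nat_mul_pi (2 * m)
    push_cast at this
    rw [← this]
    ring_nf
  rw [e6] at h7
  linarith

end V1171.MLP
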