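import Pool.Agent.V1171.MLP.Est3
import Pool.Agent.V1171.MLP.Top2

set_option autoImplicit false

/-! The two edges. -/

namespace V1171.MLP

open MeasureTheory Filter Topology Set Complex V1171.MLZ

lemma ell_abs (w : ℂ) : |ell w| ≤ 3 * ‖w‖ := by
  unfold ell
  have h1 := Complex.abs_re_le_norm w
  have h2 := Complex.abs_im_le_norm w
  rw [abs_le] at h1 h2 ⊢
  constructor <;> linarith [h1.1, h1.2, h2.1, h2.2]

lemma ell_add (a b : ℂ) : ell (a + b) = ell a + ell b := by
  unfold ell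
  simp
  ring

lemma ell_real (r : ℝ) (b : ℂ) : ell ((r : ℂ) * b) = r * ell b := by
  unfold ell
  rw [Complex.re_ofReal_mul, Complex.im_ofReal_mul]
  ring

lemma bh_ell {α : ℝ} (h1 : 7 / 4 ≤ α) (h2 : α < 2) : 1 / 2 ≤ ell (bh α) := by
  have hpi := Real.pi_pos
  have e : bh α = cexp (((Real.pi * α / 2 - Real.pi / 2 : ℝ) : ℂ) * I) := by
    unfold bh cc
    rw [← Complex.exp_neg]
    have : ((Real.pi * α / 2 - Real.pi / 2 : ℝ) : ℂ) * I =
        -((((-(Real.pi * α / 2) : ℝ) : ℂ)) * I) - (Real.pi / 2 : ℂ) * I := by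
      push_cast; ring
    rw [this, Complex.exp_sub, Complex.exp_pi_div_two_mul_I, Complex.div_I]
    ring
  rw [e, ell_exp]
  have e1 : (((Real.pi * α / 2 - Real.pi / 2 : ℝ) : ℂ) * I).re = 0 := by
    rw [Complex.re_ofReal_mul]; simp
  have e2 : (((Real.pi * α / 2 - Real.pi / 2 : ℝ) : ℂ) * I).im =
      Real.pi * α / 2 - Real.pi / 2 := by
    rw [Complex.im_ofReal_mul]; simp
  rw [e1, e2, Real.exp_zero, one_mul]
  have h3 : 0 ≤ Real.cos (Real.pi * α / 2 - Real.pi / 2) := by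
    apply Real.cos_nonneg_of_neg_pi_div_two_le_of_le
    · nlinarith
    · nlinarith
  have h4 : 1 / 2 ≤ Real.sin (Real.pi * α / 2 - Real.pi / 2) := by
    rw [← Real.sin_pi_div_six]
    apply Real.sin_le_sin_of_le_of_le_pi_div_two
    · nlinarith
    · nlinarith
    · nlinarith
  linarith

lemma A0_bd {α θ : ℝ} (h1 : 7 / 4 ≤ α) (h2 : α < 2)
    (hθ : α * (θ + Real.pi / 2) = 2 * Real.pi) : 1 / 2 ≤ A0 α θ ∧ A0 α θ ≤ 2 := by
  have hb := th_bd h1 h2 hθ
  have hpi := Real.pi_pos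
  have hs : 0 ≤ Real.sin θ :=
    Real.sin_nonneg_of_nonneg_of_le_pi (by linarith [hb.1]) (by linarith [hb.2])
  have hs1 := Real.sin_le_one θ
  unfold A0
  constructor
  · rw [le_div_iff₀ (by positivity)]
    nlinarith
  · rw [div_le_iff₀ (by positivity)]
    nlinarith

lemma edge_pos {α θ τ : ℝ} (h1 : 7 / 4 ≤ α) (h2 : α < 2)
    (hθ : α * (θ + Real.pi / 2) = 2 * Real.pi) (z : ℂ) (hG : 0 < kap α * gf (α - 1) τ)
    (h : ‖z - ((A0 α θ : ℝ) * QQ θ τ + ((kap α * gf (α - 1) τ / α : ℝ) : ℂ) * bh α)‖ ≤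
      1 / 100 * ‖QQ θ τ‖ + 1 / 100 * (kap α * gf (α - 1) τ))
    (hc : 1 / 2 * ‖QQ θ τ‖ ≤ ell (QQ θ τ) ∨ ‖QQ θ τ‖ ≤ 1 / 100 * (kap α * gf (α - 1) τ)) :
    0 < ell z := by
  set G := kap α * gf (α - 1) τ with hGd
  set w := z - ((A0 α θ : ℝ) * QQ θ τ + ((G / α : ℝ) : ℂ) * bh α) with hw
  have e : z = w + ((A0 α θ : ℝ) * QQ θ τ + ((G / α : ℝ) : ℂ) * bh α) := by rw [hw]; ring
  rw [e, ell_add, ell_add, ell_real, ell_real]
  have a1 := ell_abs w
  have a2 := bh_ell h1 h2
  obtain ⟨b1, b2⟩ := A0_bd h1 h2 hθ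
  have a3 := ell_abs (QQ θ τ)
  have hQ := norm_nonneg (QQ θ τ)
  rw [abs_le] at a1 a3
  have c1 : G / 4 ≤ G / α * ell (bh α) := by
    have : G / 2 ≤ G / α := by
      apply div_le_div_of_nonneg_left hG.le (by linarith) h2.le
    have h5 : G / 2 * (1 / 2) ≤ G / α * ell (bh α) :=
      mul_le_mul this a2 (by norm_num) (by positivity)
    linarith
  rcases hc with hc | hc
  · have c2 : 1 / 4 * ‖QQ θ τ‖ ≤ A0 α θ * ell (QQ θ τ) := by
      have := mul_le_mul b1 hc (by positivity) (by linarith)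
      linarith
    linarith [a1.1]
  · have c2 : -(6 * ‖QQ θ τ‖) ≤ A0 α θ * ell (QQ θ τ) := by
      nlinarith [a3.1]
    linarith [a1.1]

lemma QQ_exp (θ τ : ℝ) : QQ θ τ = cexp (((τ * Real.cos θ : ℝ) : ℂ) + ((τ * Real.sin θ : ℝ) : ℂ) * I) := by
  unfold QQ
  congr 1
  rw [Complex.exp_mul_I, ← Complex.ofReal_cos, ← Complex.ofReal_sin]
  push_cast
  ring

lemma QQ_norm (θ τ : ℝ) : ‖QQ θ τ‖ = Real.exp (τ * Real.cos θ) := by
  rw [QQ_exp, Complex.norm_exp, Complex.add_re, Complex.ofReal_re, Complex.re_ofReal_mul, I_re,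
    mul_zero, add_zero]

lemma QQ_ell (θ τ : ℝ) : ell (QQ θ τ) = Real.exp (τ * Real.cos θ) *
    (2 * Real.cos (τ * Real.sin θ) + Real.sin (τ * Real.sin θ)) := by
  have e1 : (((τ * Real.cos θ : ℝ) : ℂ) + ((τ * Real.sin θ : ℝ) : ℂ) * I).re =
      τ * Real.cos θ := by
    rw [Complex.add_re, Complex.ofReal_re, Complex.re_ofReal_mul, I_re, mul_zero, add_zero]
  have e2 : (((τ * Real.cos θ : ℝ) : ℂ) + ((τ * Real.sin θ : ℝ) : ℂ) * I).im =
      τ * Real.sin θ := by
    rw [Complex.add_im, Complex.ofReal_im, Complex.im_ofReal_mul, I_im, mul_one, zero_add]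
  rw [QQ_exp, ell_exp, e1, e2]

lemma kap_eta {α θ : ℝ} (hθ : α * (θ + Real.pi / 2) = 2 * Real.pi) :
    kap α = Real.sin (α * (θ - Real.pi / 2)) / Real.pi := by
  have : α * (θ - Real.pi / 2) = 2 * Real.pi - Real.pi * α := by linear_combination hθ
  unfold kap
  rw [this, Real.sin_two_pi_sub]
  ring

lemma top_edge : ∀ᶠ m : ℕ in atTop, ∀ α : ℝ, 7 / 4 ≤ α → α < 2 →
    0 < ell (psi α (2 * Real.pi * m)) := by
  have hpi := Real.pi_pos
  have hpi3 := Real.pi_gt_three
  have hm : Tendsto (fun m : ℕ => 2 * Real.pi * (m : ℝ)) atTop atTop :=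
    tendsto_natCast_atTop_atTop.const_mul_atTop (by positivity)
  have l1 : Tendsto (fun τ : ℝ => Real.sqrt τ ^ 3 * Real.exp (-(Real.sqrt τ / 2))) atTop (𝓝 0) := by
    have h3 : Tendsto (fun τ : ℝ => Real.sqrt τ / 2) atTop atTop :=
      Real.tendsto_sqrt_atTop.atTop_div_const (by norm_num)
    have h4 := ((Real.tendsto_pow_mul_exp_neg_atTop_nhds_zero 3).comp h3).const_mul 8
    rw [mul_zero] at h4
    refine h4.congr fun τ => ?_
    simp only [Function.comp]
    ring
  set c0 : ℝ := 1 / 100 * (Real.exp (-4) / (2 * Real.pi)) with hc0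
  have hc0p : 0 < c0 := by positivity
  have hev := (main_est.and ((eventually_ge_atTop (1 : ℝ)).and
    (l1.eventually (ge_mem_nhds hc0p))))
  filter_upwards [hm.eventually hev] with m hm α h1 h2
  obtain ⟨hmain, hτ1, hl1⟩ := hm
  set τ := 2 * Real.pi * (m : ℝ) with hτd
  have hτ : 0 < τ := by linarith
  set θ := 2 * Real.pi / α - Real.pi / 2 with hθd
  have hα : 0 < α := by linarith
  have hθ : α * (θ + Real.pi / 2) = 2 * Real.pi := by
    rw [hθd]
    field_simp
    ring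
  have hb := th_bd h1 h2 hθ
  have hk := kap_pos h1 h2
  have hg := gf_lower (a := α - 1) (by linarith) (by linarith) hτ
  have hg0 : 0 < gf (α - 1) τ := lt_of_lt_of_le (by positivity) hg
  have hG : 0 < kap α * gf (α - 1) τ := mul_pos hk hg0
  have hPP : PP τ = 1 := by
    unfold PP
    rw [Complex.exp_eq_one_iff]
    refine ⟨-(m : ℤ), ?_⟩
    rw [hτd]
    push_cast
    ring
  have h := hmain α θ h1 h2 hθ
  rw [hPP, inv_one, mul_one] at h
  apply edge_pos h1 h2 hθ _ hG h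
  set η := θ - Real.pi / 2 with hη
  have hη0 : 0 < η := by rw [hη]; linarith [hb.1]
  have hη1 : η ≤ Real.pi / 7 := by rw [hη]; linarith [hb.2]
  have ecos : Real.cos θ = -Real.sin η := by
    have : θ = η + Real.pi / 2 := by rw [hη]; ring
    rw [this, Real.cos_add_pi_div_two]
  have esin : Real.sin θ = Real.cos η := by
    have : θ = η + Real.pi / 2 := by rw [hη]; ring
    rw [this, Real.sin_add_pi_div_two]
  set ω := τ * (1 - Real.cos η) with hω
  have hω0 : 0 ≤ ω := mul_nonneg hτ.le (by linarith [Real.cos_le_one η])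
  have e1 : Real.cos (τ * Real.sin θ) = Real.cos ω := by
    have : τ * Real.sin θ = (m : ℝ) * (2 * Real.pi) - ω := by rw [esin, hω, hτd]; ring
    rw [this, Real.cos_nat_mul_two_pi_sub]
  have e2 : Real.sin (τ * Real.sin θ) = -Real.sin ω := by
    have : τ * Real.sin θ = (m : ℝ) * (2 * Real.pi) - ω := by rw [esin, hω, hτd]; ring
    rw [this, Real.sin_nat_mul_two_pi_sub]
  rcases le_or_gt ω (Real.pi / 4) with hle | hgt
  · left
    rw [QQ_norm, QQ_ell, e1, e2]
    have h3 : √2 / 2 ≤ Real.cos ω := by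
      rw [← Real.cos_pi_div_four]
      exact Real.cos_le_cos_of_nonneg_of_le_pi hω0 (by linarith) hle
    have h4 : Real.sin ω ≤ √2 / 2 := by
      rw [← Real.sin_pi_div_four]
      exact Real.sin_le_sin_of_le_of_le_pi_div_two (by linarith) (by linarith) hle
    have h5 : (1 : ℝ) ≤ √2 := by
      rw [Real.one_le_sqrt]
      norm_num
    have h6 := Real.exp_pos (τ * Real.cos θ)
    nlinarith
  · right
    have hs : Real.cos η = 1 - 2 * Real.sin (η / 2) ^ 2 := by
      have : η = 2 * (η / 2) := by ring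
      nth_rewrite 1 [this]
      rw [Real.cos_two_mul, Real.cos_sq']
      ring
    have hs0 : 0 < Real.sin (η / 2) :=
      Real.sin_pos_of_pos_of_lt_pi (by linarith) (by linarith)
    have hsq : 0 < √τ := Real.sqrt_pos.mpr hτ
    have hss : √τ ^ 2 = τ := Real.sq_sqrt hτ.le
    have hsl : 1 / 2 ≤ √τ * Real.sin (η / 2) := by
      rw [hω, hs] at hgt
      by_contra hcon
      push Not at hcon
      have h7 : (√τ * Real.sin (η / 2)) ^ 2 < (1 / 2) ^ 2 :=
        pow_lt_pow_left₀ hcon (by positivity) (by norm_num)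
      rw [mul_pow, hss] at h7
      nlinarith
    have hmono1 : Real.sin (η / 2) ≤ Real.sin η :=
      Real.sin_le_sin_of_le_of_le_pi_div_two (by linarith) (by linarith) (by linarith)
    have hαη : α * η = 2 * Real.pi - Real.pi * α := by
      rw [hη]; linear_combination hθ
    have hmono2 : Real.sin (η / 2) ≤ Real.sin (α * η) := by
      apply Real.sin_le_sin_of_le_of_le_pi_div_two
      · linarith
      · rw [hαη]; nlinarith
      · nlinarith
    have hkap : Real.sin (η / 2) / Real.pi ≤ kap α := by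
      rw [kap_eta hθ]
      exact div_le_div_of_nonneg_right hmono2 hpi.le
    -- norm of Q
    have hQ : ‖QQ θ τ‖ ≤ Real.exp (-(√τ / 2)) := by
      rw [QQ_norm, ecos, Real.exp_le_exp]
      have : √τ / 2 ≤ τ * Real.sin η := by
        calc √τ / 2 = √τ * (1 / 2) := by ring
          _ ≤ √τ * (√τ * Real.sin (η / 2)) := mul_le_mul_of_nonneg_left hsl hsq.le
          _ = τ * Real.sin (η / 2) := by rw [← mul_assoc, ← sq, hss]
          _ ≤ τ * Real.sin η := mul_le_mul_of_nonneg_left hmono1 hτ.le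
      linarith
    have hρ : τ⁻¹ ≤ Real.exp (-((α - 1) * Real.log τ)) := by
      have h8 : τ⁻¹ = Real.exp (-Real.log τ) := by rw [Real.exp_neg, Real.exp_log hτ]
      rw [h8, Real.exp_le_exp]
      have := Real.log_nonneg hτ1
      nlinarith
    have hGl : Real.exp (-4) / (2 * Real.pi) * (√τ ^ 3)⁻¹ ≤ kap α * gf (α - 1) τ := by
      have h9 : Real.exp (-4) * τ⁻¹ ≤ gf (α - 1) τ :=
        (mul_le_mul_of_nonneg_left hρ (Real.exp_pos _).le).trans hg
      have h10 : (2 * Real.pi * √τ)⁻¹ ≤ kap α := by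
        refine le_trans ?_ hkap
        rw [inv_eq_one_div, div_le_div_iff₀ (by positivity) hpi]
        nlinarith
      have aux : ∀ z : ℝ, 0 < z → Real.exp (-4) / (2 * Real.pi) * (z ^ 3)⁻¹ =
          (2 * Real.pi * z)⁻¹ * (Real.exp (-4) * (z ^ 2)⁻¹) := by
        intro z hz
        field_simp
      have hτi : τ⁻¹ = (√τ ^ 2)⁻¹ := by rw [hss]
      calc Real.exp (-4) / (2 * Real.pi) * (√τ ^ 3)⁻¹
          = (2 * Real.pi * √τ)⁻¹ * (Real.exp (-4) * τ⁻¹) := by
            rw [aux _ hsq, ← hτi]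
        _ ≤ kap α * gf (α - 1) τ :=
            mul_le_mul h10 h9 (by positivity) hk.le
    refine hQ.trans ?_
    have h11 : Real.exp (-(√τ / 2)) ≤ c0 * (√τ ^ 3)⁻¹ := by
      rw [← div_eq_mul_inv, le_div_iff₀ (by positivity)]
      linarith
    refine h11.trans ?_
    rw [hc0, mul_assoc]
    exact mul_le_mul_of_nonneg_left hGl (by norm_num)

lemma left_edge {α : ℝ} (h1 : 7 / 4 ≤ α) (h2 : α < 2) :
    ∀ᶠ τ : ℝ in atTop, 0 < ell (psi α τ * cexp (I * τ)) := by
  have hpi := Real.pi_pos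
  set θ := 2 * Real.pi / α - Real.pi / 2 with hθd
  have hα : 0 < α := by linarith
  have hθ : α * (θ + Real.pi / 2) = 2 * Real.pi := by
    rw [hθd]
    field_simp
    ring
  have hb := th_bd h1 h2 hθ
  have hk := kap_pos h1 h2
  have hcn : 0 < -Real.cos θ := by
    rw [neg_pos]
    exact Real.cos_neg_of_pi_div_two_lt_of_lt hb.1 (by linarith [hb.2])
  set c := -Real.cos θ with hc
  have l1 : Tendsto (fun τ : ℝ => τ * Real.exp (-(c * τ))) atTop (𝓝 0) := by
    have h3 : Tendsto (fun τ : ℝ => c * τ) atTop atTop := tendsto_id.const_mul_atTop hcn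
    have h4 := ((Real.tendsto_pow_mul_exp_neg_atTop_nhds_zero 1).comp h3).const_mul (c⁻¹)
    rw [mul_zero] at h4
    refine h4.congr fun τ => ?_
    simp only [Function.comp, pow_one]
    field_simp
  set c0 : ℝ := 1 / 100 * (kap α * Real.exp (-4)) with hc0
  have hc0p : 0 < c0 := by positivity
  filter_upwards [main_est, eventually_ge_atTop (1 : ℝ), l1.eventually (ge_mem_nhds hc0p)]
    with τ hmain hτ1 hl1
  have hτ : 0 < τ := by linarith
  have hg := gf_lower (a := α - 1) (by linarith) (by linarith) hτ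
  have hg0 : 0 < gf (α - 1) τ := lt_of_lt_of_le (by positivity) hg
  have hG : 0 < kap α * gf (α - 1) τ := mul_pos hk hg0
  have h := hmain α θ h1 h2 hθ
  have hPP : (PP τ)⁻¹ = cexp (I * τ) := by
    unfold PP
    rw [Complex.exp_neg, inv_inv]
  rw [hPP] at h
  apply edge_pos h1 h2 hθ _ hG h
  right
  have hρ : τ⁻¹ ≤ Real.exp (-((α - 1) * Real.log τ)) := by
    have h8 : τ⁻¹ = Real.exp (-Real.log τ) := by rw [Real.exp_neg, Real.exp_log hτ]
    rw [h8, Real.exp_le_exp]
    have := Real.log_nonneg hτ1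
    nlinarith
  have h9 : Real.exp (-4) * τ⁻¹ ≤ gf (α - 1) τ :=
    (mul_le_mul_of_nonneg_left hρ (Real.exp_pos _).le).trans hg
  have hQ : ‖QQ θ τ‖ = Real.exp (-(c * τ)) := by
    rw [QQ_norm, hc]
    congr 1
    ring
  rw [hQ]
  have h11 : Real.exp (-(c * τ)) ≤ c0 * τ⁻¹ := by
    rw [← div_eq_mul_inv, le_div_iff₀ hτ]
    linarith
  refine h11.trans ?_
  rw [hc0, mul_assoc]
  apply mul_le_mul_of_nonneg_left _ (by norm_num)
  rw [mul_assoc]
  exact mul_le_mul_of_nonneg_left h9 hk.le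

end V1171.MLP
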