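import Pool.Agent.V1171.MLP.Ker

set_option autoImplicit false

/-! Estimates of the algebraic parts. -/

namespace V1171.MLP

open MeasureTheory Filter Topology Set Complex V1171.MLZ

noncomputable def gf (a τ : ℝ) : ℝ := ∫ y, Real.exp (-(τ * Real.exp y)) * Real.exp (a * y)

noncomputable def C1 : ℝ := ∫ y : ℝ, 24 * Real.exp (-(3 / 4 * |y|))

lemma gf_pt {a : ℝ} (ha : 3 / 4 ≤ a) (ha3 : a ≤ 3) (y : ℝ) :
    Real.exp (-(1 * Real.exp y)) * Real.exp (a * y) ≤ 24 * Real.exp (-(3 / 4 * |y|)) := by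
  rcases le_total 0 y with hy | hy
  · rw [abs_of_nonneg hy]
    have h1 := Real.pow_div_factorial_le_exp (Real.exp y) (Real.exp_pos y).le 4
    have h2 : Real.exp (-(1 * Real.exp y)) ≤ 24 * Real.exp (-(4 * y)) := by
      rw [one_mul, Real.exp_neg]
      have h3 : Real.exp y ^ 4 = Real.exp (4 * y) := by
        rw [← Real.exp_nat_mul]; norm_num
      have h4 : (Nat.factorial 4 : ℝ) = 24 := by norm_num [Nat.factorial]
      rw [h3, h4] at h1
      have h5 : 0 < Real.exp (4 * y) / 24 := by positivity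
      have h6 := inv_anti₀ h5 h1
      refine h6.trans (le_of_eq ?_)
      rw [inv_div, Real.exp_neg, div_eq_mul_inv]
    calc Real.exp (-(1 * Real.exp y)) * Real.exp (a * y)
        ≤ 24 * Real.exp (-(4 * y)) * Real.exp (a * y) :=
          mul_le_mul_of_nonneg_right h2 (Real.exp_pos _).le
      _ = 24 * Real.exp ((a - 4) * y) := by
          rw [mul_assoc, ← Real.exp_add]; ring_nf
      _ ≤ 24 * Real.exp (-(3 / 4 * y)) := by
          apply mul_le_mul_of_nonneg_left _ (by norm_num)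
          rw [Real.exp_le_exp]
          nlinarith
  · rw [abs_of_nonpos hy]
    have h1 : Real.exp (-(1 * Real.exp y)) ≤ 1 := by
      rw [Real.exp_le_one_iff]
      have := Real.exp_pos y
      linarith
    have h2 : Real.exp (a * y) ≤ Real.exp (-(3 / 4 * -y)) := by
      rw [Real.exp_le_exp]
      nlinarith
    have h3 := Real.exp_pos (a * y)
    have h4 := Real.exp_pos (-(3 / 4 * -y))
    nlinarith [Real.exp_pos (-(1 * Real.exp y))]

lemma gf_int1 {a : ℝ} (ha : 3 / 4 ≤ a) (ha3 : a ≤ 3) :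
    Integrable fun y : ℝ => Real.exp (-(1 * Real.exp y)) * Real.exp (a * y) := by
  apply Integrable.mono' ((exp_abs_int (α := 3 / 4) (by norm_num)).const_mul 24)
  · apply Continuous.aestronglyMeasurable
    fun_prop
  · refine Eventually.of_forall fun y => ?_
    rw [Real.norm_of_nonneg (by positivity)]
    exact gf_pt ha ha3 y

lemma gf_fun {a τ : ℝ} (hτ : 0 < τ) (y : ℝ) :
    Real.exp (-(τ * Real.exp (y - Real.log τ))) * Real.exp (a * (y - Real.log τ)) =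
      Real.exp (-(a * Real.log τ)) * (Real.exp (-(1 * Real.exp y)) * Real.exp (a * y)) := by
  rw [Real.exp_sub, Real.exp_log hτ, mul_div_cancel₀ _ hτ.ne', one_mul]
  have : a * (y - Real.log τ) = -(a * Real.log τ) + a * y := by ring
  rw [this, Real.exp_add]
  ring

lemma gf_scale {a τ : ℝ} (hτ : 0 < τ) : gf a τ = Real.exp (-(a * Real.log τ)) * gf a 1 := by
  unfold gf
  rw [← integral_sub_right_eq_self (fun y => Real.exp (-(τ * Real.exp y)) * Real.exp (a * y))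
    (Real.log τ)]
  simp only [gf_fun hτ]
  rw [integral_const_mul]

lemma gf_int {a τ : ℝ} (ha : 3 / 4 ≤ a) (ha3 : a ≤ 3) (hτ : 0 < τ) :
    Integrable fun y : ℝ => Real.exp (-(τ * Real.exp y)) * Real.exp (a * y) := by
  have h := ((gf_int1 ha ha3).const_mul (Real.exp (-(a * Real.log τ))))
  have h2 : Integrable fun y : ℝ => Real.exp (-(τ * Real.exp (y - Real.log τ))) *
      Real.exp (a * (y - Real.log τ)) := by
    simp only [gf_fun hτ]
    exact h
  have h3 := h2.comp_add_right (Real.log τ)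
  simpa using h3

lemma gf_upper {a τ : ℝ} (ha : 3 / 4 ≤ a) (ha3 : a ≤ 3) (hτ : 0 < τ) :
    gf a τ ≤ C1 * Real.exp (-(a * Real.log τ)) := by
  rw [gf_scale hτ, mul_comm]
  apply mul_le_mul_of_nonneg_right _ (Real.exp_pos _).le
  unfold gf C1
  exact integral_mono (gf_int1 ha ha3) ((exp_abs_int (α := 3 / 4) (by norm_num)).const_mul 24)
    (gf_pt ha ha3)

lemma gf_nonneg (a τ : ℝ) : 0 ≤ gf a τ := integral_nonneg fun y => by positivity

lemma gf_lower {a τ : ℝ} (ha : 3 / 4 ≤ a) (ha3 : a ≤ 3) (hτ : 0 < τ) :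
    Real.exp (-4) * Real.exp (-(a * Real.log τ)) ≤ gf a τ := by
  rw [gf_scale hτ, mul_comm]
  apply mul_le_mul_of_nonneg_left _ (Real.exp_pos _).le
  unfold gf
  have h1 : ∫ _ in Ioc (-1 : ℝ) 0, Real.exp (-4) ≤
      ∫ y in Ioc (-1 : ℝ) 0, Real.exp (-(1 * Real.exp y)) * Real.exp (a * y) := by
    apply setIntegral_mono_on
    · simp
    · exact (gf_int1 ha ha3).integrableOn
    · exact measurableSet_Ioc
    · intro y hy
      rw [← Real.exp_add, Real.exp_le_exp]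
      have h2 : Real.exp y ≤ 1 := Real.exp_le_one_iff.mpr hy.2
      nlinarith [hy.1, hy.2]
  have h2 : ∫ y in Ioc (-1 : ℝ) 0, Real.exp (-(1 * Real.exp y)) * Real.exp (a * y) ≤
      ∫ y, Real.exp (-(1 * Real.exp y)) * Real.exp (a * y) :=
    setIntegral_le_integral (gf_int1 ha ha3) (Eventually.of_forall fun y => by
      simp only [Pi.zero_apply]
      positivity)
  have h3 : ∫ _ in Ioc (-1 : ℝ) 0, Real.exp (-4) = Real.exp (-4) := by
    simp
  linarith

noncomputable def JJ (α : ℝ) (n : ℕ) (τ : ℝ) : ℂ := ak (jk α n) τ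

lemma Dk_le_one {α : ℝ} (h1 : 7 / 4 ≤ α) (h2 : α < 2) (y : ℝ) : ‖Dk α y‖ ≤ 1 := by
  have hD := Dk_norm h1 h2 y
  nlinarith [mul_nonneg (norm_nonneg (Dk α y)) (sq_nonneg (Real.exp (α * y)))]

lemma JJ_bd {α : ℝ} (h1 : 7 / 4 ≤ α) (h2 : α < 2) {n : ℕ} (hn : n ≤ 2) {τ : ℝ} (hτ : 0 < τ) :
    ‖JJ α n τ‖ ≤ gf (α - 1 + n) τ := by
  have hn' : (n : ℝ) ≤ 2 := by exact_mod_cast hn
  have hn0 : (0 : ℝ) ≤ n := Nat.cast_nonneg n
  unfold JJ ak gf
  apply norm_integral_le_of_norm_le (gf_int (by linarith) (by linarith) hτ)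
  refine Eventually.of_forall fun y => ?_
  unfold jk
  rw [norm_mul, norm_mul, Complex.norm_real, Complex.norm_real,
    Real.norm_of_nonneg (Real.exp_pos _).le, Real.norm_of_nonneg (Real.exp_pos _).le]
  apply mul_le_mul_of_nonneg_left _ (Real.exp_pos _).le
  apply mul_le_of_le_one_right (Real.exp_pos _).le (Dk_le_one h1 h2 y)

lemma Dk_err {α : ℝ} (h1 : 7 / 4 ≤ α) (h2 : α < 2) (y : ℝ) :
    ‖Dk α y - (cc α ^ 2)⁻¹‖ ≤ 3 * Real.exp (α * y) := by
  obtain ⟨n1, n2⟩ := Dk_ne h1 h2 y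
  have hE := Real.exp_pos (α * y)
  have hc : cc α ^ 2 ≠ 0 := pow_ne_zero _ (cc_ne α)
  have hD := Dk_norm h1 h2 y
  set E := Real.exp (α * y) with hEd
  have e1 : Dk α y - (cc α ^ 2)⁻¹ = Dk α y * ((E : ℂ) * (w1 α + w2 α) - (E : ℂ) ^ 2) *
      (cc α ^ 2)⁻¹ := by
    have h3 : Dk α y * (((E : ℂ) - w1 α) * ((E : ℂ) - w2 α)) = 1 := by
      unfold Dk
      exact inv_mul_cancel₀ (mul_ne_zero n1 n2)
    have h4 : cc α ^ 2 * (cc α ^ 2)⁻¹ = 1 := mul_inv_cancel₀ hc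
    have h5 := w1w2 α
    have h6 : Dk α y * ((E : ℂ) ^ 2 - (E : ℂ) * (w1 α + w2 α) + cc α ^ 2) = 1 := by
      rw [← h3, ← h5]
      ring
    linear_combination (-Dk α y) * h4 + (cc α ^ 2)⁻¹ * h6
  rw [e1, norm_mul, norm_mul, norm_inv, norm_pow, cc_norm]
  have h7 : ‖(E : ℂ) * (w1 α + w2 α) - (E : ℂ) ^ 2‖ ≤ 2 * E + E ^ 2 := by
    refine (norm_sub_le _ _).trans ?_
    rw [norm_mul, norm_pow, Complex.norm_real, Real.norm_of_nonneg hE.le]
    have h8 : ‖w1 α + w2 α‖ ≤ 2 := by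
      refine (norm_add_le _ _).trans ?_
      rw [w1_norm, w2_norm]
      norm_num
    nlinarith
  have hD0 := norm_nonneg (Dk α y)
  have h9 : ‖Dk α y‖ * (2 * E + E ^ 2) ≤ 3 * E := by
    have h10 : 2 * E + E ^ 2 ≤ 3 * E * (1 + E ^ 2) := by nlinarith [sq_nonneg (E - 1), sq_nonneg E]
    calc ‖Dk α y‖ * (2 * E + E ^ 2) ≤ ‖Dk α y‖ * (3 * E * (1 + E ^ 2)) :=
          mul_le_mul_of_nonneg_left h10 hD0
      _ = 3 * E * (‖Dk α y‖ * (1 + E ^ 2)) := by ring
      _ ≤ 3 * E * 1 := mul_le_mul_of_nonneg_left hD (by positivity)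
      _ = 3 * E := mul_one _
  calc ‖Dk α y‖ * ‖(E : ℂ) * (w1 α + w2 α) - (E : ℂ) ^ 2‖ * (1 ^ 2)⁻¹
      = ‖Dk α y‖ * ‖(E : ℂ) * (w1 α + w2 α) - (E : ℂ) ^ 2‖ := by norm_num
    _ ≤ ‖Dk α y‖ * (2 * E + E ^ 2) := mul_le_mul_of_nonneg_left h7 hD0
    _ ≤ 3 * E := h9

lemma JJ_err {α : ℝ} (h1 : 7 / 4 ≤ α) (h2 : α < 2) {τ : ℝ} (hτ : 0 < τ) :
    ‖JJ α 0 τ - (cc α ^ 2)⁻¹ * (gf (α - 1) τ : ℝ)‖ ≤ 3 * gf (2 * α - 1) τ := by
  have i1 : Integrable fun y : ℝ => ((Real.exp (-(τ * Real.exp y)) : ℝ) : ℂ) * jk α 0 y := by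
    apply (jk_int h1 h2 (by norm_num : 0 ≤ 2)).bdd_mul (c := 1)
    · apply Continuous.aestronglyMeasurable
      apply Complex.continuous_ofReal.comp
      fun_prop
    · refine Eventually.of_forall fun y => ?_
      rw [Complex.norm_real, Real.norm_of_nonneg (Real.exp_pos _).le, Real.exp_le_one_iff]
      have := mul_pos hτ (Real.exp_pos y)
      linarith
  have i2 : Integrable fun y : ℝ => (cc α ^ 2)⁻¹ *
      ((Real.exp (-(τ * Real.exp y)) * Real.exp ((α - 1) * y) : ℝ) : ℂ) :=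
    (gf_int (by linarith) (by linarith) hτ).ofReal.const_mul _
  have e1 : JJ α 0 τ - (cc α ^ 2)⁻¹ * (gf (α - 1) τ : ℝ) =
      ∫ y, (((Real.exp (-(τ * Real.exp y)) : ℝ) : ℂ) * jk α 0 y - (cc α ^ 2)⁻¹ *
      ((Real.exp (-(τ * Real.exp y)) * Real.exp ((α - 1) * y) : ℝ) : ℂ)) := by
    rw [integral_sub i1 i2, integral_const_mul, integral_complex_ofReal]
    rfl
  rw [e1]
  have e2 : 3 * gf (2 * α - 1) τ =
      ∫ y, 3 * (Real.exp (-(τ * Real.exp y)) * Real.exp ((2 * α - 1) * y)) := by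
    unfold gf
    rw [integral_const_mul]
  rw [e2]
  apply norm_integral_le_of_norm_le ((gf_int (by linarith) (by linarith) hτ).const_mul 3)
  refine Eventually.of_forall fun y => ?_
  have e3 : ((Real.exp (-(τ * Real.exp y)) : ℝ) : ℂ) * jk α 0 y - (cc α ^ 2)⁻¹ *
      ((Real.exp (-(τ * Real.exp y)) * Real.exp ((α - 1) * y) : ℝ) : ℂ) =
      ((Real.exp (-(τ * Real.exp y)) * Real.exp ((α - 1) * y) : ℝ) : ℂ) *
      (Dk α y - (cc α ^ 2)⁻¹) := by
    unfold jk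
    push_cast
    rw [add_zero]
    ring
  rw [e3, norm_mul, Complex.norm_real, Real.norm_of_nonneg (by positivity)]
  have h3 := Dk_err h1 h2 y
  have e4 : Real.exp ((2 * α - 1) * y) = Real.exp ((α - 1) * y) * Real.exp (α * y) := by
    rw [← Real.exp_add]; ring_nf
  rw [e4]
  have h4 : 0 ≤ Real.exp (-(τ * Real.exp y)) * Real.exp ((α - 1) * y) := by positivity
  have h5 := mul_le_mul_of_nonneg_left h3 h4
  refine h5.trans (le_of_eq ?_)
  ring

end V1171.MLP
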