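import Pool.Agent.V1171.MLP.Est

set_option autoImplicit false

/-! The main estimate. -/

namespace V1171.MLP

open MeasureTheory Filter Topology Set Complex V1171.MLZ

lemma ak_const (c : ℂ) (k : ℝ → ℂ) (τ : ℝ) : ak (fun y => c * k y) τ = c * ak k τ := by
  unfold ak
  rw [← integral_const_mul]
  congr 1
  funext y
  ring

noncomputable def PP (τ : ℝ) : ℂ := cexp (-(I * τ))

noncomputable def QQ (θ τ : ℝ) : ℂ := cexp (cexp (θ * I) * τ)

lemma zm_I : cexp zm = -I := by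
  unfold zm
  rw [Complex.exp_neg]
  push_cast
  rw [Complex.exp_pi_div_two_mul_I, inv_I]

lemma PP_eq (τ : ℝ) : cexp (cexp zm * τ) = PP τ := by
  rw [zm_I]
  unfold PP
  ring_nf

lemma PP_norm (τ : ℝ) : ‖PP τ‖ = 1 := by
  unfold PP
  rw [Complex.norm_exp]
  simp

noncomputable def psi (α τ : ℝ) : ℂ := um α 1 τ ^ 2 - um α 2 τ * (cc α * um α α τ)

lemma two_pi_I : (2 * (Real.pi : ℂ) * I) ≠ 0 := by
  have hpi : (Real.pi : ℂ) ≠ 0 := by exact_mod_cast Real.pi_pos.ne'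
  have := I_ne_zero
  simp [hpi]

lemma um_one {α θ τ : ℝ} (h1 : 7 / 4 ≤ α) (h2 : α < 2)
    (hθ : α * (θ + Real.pi / 2) = 2 * Real.pi) (hτ : 0 < τ) :
    um α 1 τ = (α : ℂ)⁻¹ * (QQ θ τ + PP τ) - sg α * JJ α 1 τ := by
  have e0 : α - 1 + 1 = α := by ring
  have hk := kq_one h1 h2
  have hint : Integrable (kq α (α - 1 + 1)) := by
    rw [e0, hk]
    exact (jk_int h1 h2 (by norm_num)).const_mul _
  have h := um_rep h1 h2 hθ le_rfl (by norm_num) hint hτ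
  rw [e0] at h
  rw [h, hk, ak_const, zt_exp hθ, zm_exp, PP_eq]
  have hc := cc_ne α
  have hα : (α : ℂ) ≠ 0 := by
    have : α ≠ 0 := by linarith
    exact_mod_cast this
  have h2pi := two_pi_I
  have e1 : cc α * (α * cc α)⁻¹ = (α : ℂ)⁻¹ := by field_simp
  have e2 : (2 * (Real.pi : ℂ) * I)⁻¹ * (2 * Real.pi * I * sg α * ak (jk α 1) τ) =
      sg α * ak (jk α 1) τ := by
    rw [mul_assoc (2 * (Real.pi : ℂ) * I), inv_mul_cancel_left₀ h2pi]
  rw [e1, e2]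
  unfold JJ QQ
  ring

lemma um_two {α θ τ : ℝ} (h1 : 7 / 4 ≤ α) (h2 : α < 2)
    (hθ : α * (θ + Real.pi / 2) = 2 * Real.pi) (hτ : 0 < τ) :
    um α 2 τ = (α : ℂ)⁻¹ * ((cexp (θ * I))⁻¹ * QQ θ τ + I * PP τ) + sg α * JJ α 0 τ := by
  have e0 : α - 2 + 1 = α - 1 := by ring
  have hk := kq_zero h1 h2
  have hint : Integrable (kq α (α - 2 + 1)) := by
    rw [e0, hk]
    exact (jk_int h1 h2 (by norm_num)).const_mul _
  have h := um_rep h1 h2 hθ one_le_two le_rfl hint hτ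
  rw [e0] at h
  have hc := cc_ne α
  have hα : (α : ℂ) ≠ 0 := by
    have : α ≠ 0 := by linarith
    exact_mod_cast this
  have h2pi := two_pi_I
  have e1 : cexp (((α - 1 : ℝ) : ℂ) * (θ * I)) * (α * cc α)⁻¹ = (α : ℂ)⁻¹ * (cexp (θ * I))⁻¹ := by
    have : ((α - 1 : ℝ) : ℂ) * (θ * I) = α * (θ * I) - θ * I := by push_cast; ring
    rw [this, Complex.exp_sub, zt_exp hθ]
    field_simp
  have e3 : cexp (((α - 1 : ℝ) : ℂ) * zm) * (α * cc α)⁻¹ = (α : ℂ)⁻¹ * I := by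
    have : ((α - 1 : ℝ) : ℂ) * zm = α * zm - zm := by push_cast; ring
    rw [this, Complex.exp_sub, zm_exp, zm_I, div_eq_mul_inv, inv_neg, inv_I, neg_neg]
    field_simp
  have e2 : (2 * (Real.pi : ℂ) * I)⁻¹ * (-(2 * Real.pi * I * sg α) * ak (jk α 0) τ) =
      -(sg α * ak (jk α 0) τ) := by
    have : -(2 * (Real.pi : ℂ) * I * sg α) * ak (jk α 0) τ =
      (2 * (Real.pi : ℂ) * I) * (-(sg α * ak (jk α 0) τ)) := by ring
    rw [this, inv_mul_cancel_left₀ h2pi]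
  rw [h, hk, ak_const, e1, e3, e2, PP_eq]
  unfold JJ QQ
  ring

lemma um_al {α θ τ : ℝ} (h1 : 7 / 4 ≤ α) (h2 : α < 2)
    (hθ : α * (θ + Real.pi / 2) = 2 * Real.pi) (hτ : 0 < τ) :
    cc α * um α α τ = (α : ℂ)⁻¹ * (cexp (θ * I) * QQ θ τ - I * PP τ) + sg α * JJ α 2 τ := by
  have e0 : α - α + 1 = 1 := by ring
  have hk := kq_two h1 h2
  have hc := cc_ne α
  have hkk : kq α 1 = fun y => (cc α)⁻¹ * (-(2 * Real.pi * I * sg α) * jk α 2 y) := by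
    funext y
    have := congrFun hk y
    rw [← this, inv_mul_cancel_left₀ hc]
  have hint : Integrable (kq α (α - α + 1)) := by
    rw [e0, hkk]
    exact ((jk_int h1 h2 (by norm_num)).const_mul _).const_mul _
  have h := um_rep (β := α) h1 h2 hθ (by linarith) h2.le hint hτ
  rw [e0] at h
  have hα : (α : ℂ) ≠ 0 := by
    have : α ≠ 0 := by linarith
    exact_mod_cast this
  have h2pi := two_pi_I
  have e4 : cc α * ak (kq α 1) τ = -(2 * Real.pi * I * sg α) * ak (jk α 2) τ := by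
    rw [← ak_const, hk, ak_const]
  have e2 : (2 * (Real.pi : ℂ) * I)⁻¹ * (-(2 * Real.pi * I * sg α) * ak (jk α 2) τ) =
      -(sg α * ak (jk α 2) τ) := by
    have : -(2 * (Real.pi : ℂ) * I * sg α) * ak (jk α 2) τ =
      (2 * (Real.pi : ℂ) * I) * (-(sg α * ak (jk α 2) τ)) := by ring
    rw [this, inv_mul_cancel_left₀ h2pi]
  have e5 : cc α * ((2 * (Real.pi : ℂ) * I)⁻¹ * ak (kq α 1) τ) = -(sg α * ak (jk α 2) τ) := by
    rw [← e2, ← e4]
    ring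
  rw [h, mul_sub, e5, PP_eq]
  have e6 : cc α * (α * cc α)⁻¹ = (α : ℂ)⁻¹ := by field_simp
  unfold JJ QQ
  have e7 : ((1 : ℝ) : ℂ) = 1 := by norm_num
  rw [e7, one_mul, one_mul, zm_I]
  linear_combination (cexp (θ * I) * cexp (cexp (θ * I) * τ) - I * PP τ) * e6

lemma psi_dec {α θ τ : ℝ} (h1 : 7 / 4 ≤ α) (h2 : α < 2)
    (hθ : α * (θ + Real.pi / 2) = 2 * Real.pi) (hτ : 0 < τ) :
    psi α τ = (2 * (1 + Real.sin θ) / α ^ 2 : ℝ) * PP τ * QQ θ τ +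
      (α : ℂ)⁻¹ * sg α * (-2 * JJ α 1 τ * (PP τ + QQ θ τ) -
        JJ α 2 τ * (I * PP τ + (cexp (θ * I))⁻¹ * QQ θ τ) -
        JJ α 0 τ * (-I * PP τ + cexp (θ * I) * QQ θ τ)) +
      sg α ^ 2 * (JJ α 1 τ ^ 2 - JJ α 0 τ * JJ α 2 τ) := by
  unfold psi
  rw [um_one h1 h2 hθ hτ, um_two h1 h2 hθ hτ, um_al h1 h2 hθ hτ]
  have hs : (Real.sin θ : ℂ) = ((cexp (θ * I))⁻¹ - cexp (θ * I)) * I / 2 := by
    rw [Complex.ofReal_sin, Complex.sin, ← Complex.exp_neg, neg_mul]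
  have hp : cexp (θ * I) * (cexp (θ * I))⁻¹ = 1 := mul_inv_cancel₀ (Complex.exp_ne_zero _)
  have hα : (α : ℂ) ≠ 0 := by
    have : α ≠ 0 := by linarith
    exact_mod_cast this
  push_cast
  rw [← Complex.ofReal_sin, hs]
  have e1 : (2 * (1 + ((cexp (θ * I))⁻¹ - cexp (θ * I)) * I / 2) / (α : ℂ) ^ 2) =
      (α : ℂ)⁻¹ ^ 2 * (2 + ((cexp (θ * I))⁻¹ - cexp (θ * I)) * I) := by
    field_simp
  rw [e1]
  generalize JJ α 0 τ = J0
  generalize JJ α 1 τ = J1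
  generalize JJ α 2 τ = J2
  generalize QQ θ τ = Q
  generalize PP τ = P
  generalize sg α = s
  generalize (α : ℂ)⁻¹ = b
  generalize (cexp (θ * I))⁻¹ = p' at hp ⊢
  generalize cexp (θ * I) = p at hp ⊢
  have hI := I_sq
  linear_combination (-b ^ 2 * Q ^ 2) * hp + (b ^ 2 * P ^ 2) * hI

end V1171.MLP
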