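import Pool.Agent.V1171.MLP.Est2

set_option autoImplicit false

/-! The main estimate. -/

namespace V1171.MLP

open MeasureTheory Filter Topology Set Complex V1171.MLZ

noncomputable def kap (α : ℝ) : ℝ := -(Real.sin (Real.pi * α) / Real.pi)

noncomputable def bh (α : ℝ) : ℂ := -I * (cc α)⁻¹

noncomputable def A0 (α θ : ℝ) : ℝ := 2 * (1 + Real.sin θ) / α ^ 2

lemma kap_pos {α : ℝ} (h1 : 7 / 4 ≤ α) (h2 : α < 2) : 0 < kap α := by
  have hpi := Real.pi_pos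
  unfold kap
  rw [← Real.sin_sub_two_pi, neg_pos]
  apply div_neg_of_neg_of_pos _ hpi
  apply Real.sin_neg_of_neg_of_neg_pi_lt
  · nlinarith
  · nlinarith

lemma kap_le (α : ℝ) : kap α ≤ 1 := by
  have hpi := Real.pi_gt_three
  unfold kap
  have h1 := Real.neg_one_le_sin (Real.pi * α)
  rw [← neg_div, div_le_one (by linarith)]
  linarith

lemma sg_eq (α : ℝ) : sg α = -((kap α : ℝ) : ℂ) * cc α := by
  unfold sg kap
  push_cast
  ring

lemma sg_norm {α : ℝ} (h1 : 7 / 4 ≤ α) (h2 : α < 2) : ‖sg α‖ = kap α := by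
  rw [sg_eq, norm_mul, norm_neg, cc_norm, mul_one, Complex.norm_real,
    Real.norm_of_nonneg (kap_pos h1 h2).le]

lemma main_alg {α θ τ : ℝ} (h1 : 7 / 4 ≤ α) (h2 : α < 2)
    (hθ : α * (θ + Real.pi / 2) = 2 * Real.pi) (hτ : 0 < τ) (g0 g1 g2 g3 : ℝ)
    (hg0 : gf (α - 1) τ = g0) (hg1 : gf α τ = g1) (hg2 : gf (α + 1) τ = g2)
    (hg3 : gf (2 * α - 1) τ = g3) :
    ‖psi α τ * (PP τ)⁻¹ - ((A0 α θ : ℝ) * QQ θ τ + ((kap α * g0 / α : ℝ) : ℂ) * bh α)‖ ≤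
      kap α * (2 * g1 + g2 + g0) * ‖QQ θ τ‖ + kap α * (2 * g1 + g2) + kap α * (3 * g3) +
      kap α ^ 2 * (g1 ^ 2 + g0 * g2) := by
  have hP := PP_norm τ
  have hP0 : PP τ ≠ 0 := by
    intro h
    rw [h, norm_zero] at hP
    norm_num at hP
  have hα : (α : ℂ) ≠ 0 := by
    have : α ≠ 0 := by linarith
    exact_mod_cast this
  have hαn : ‖(α : ℂ)⁻¹‖ ≤ 1 := by
    rw [norm_inv, Complex.norm_real, Real.norm_of_nonneg (by linarith)]
    apply inv_le_one_of_one_le₀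
    linarith
  have hp : ‖cexp (θ * I)‖ = 1 := Complex.norm_exp_ofReal_mul_I θ
  have hc := cc_ne α
  have hsn := sg_norm h1 h2
  have hk := kap_pos h1 h2
  have j0 : ‖JJ α 0 τ‖ ≤ g0 := by
    have := JJ_bd h1 h2 (n := 0) (by norm_num) hτ
    rw [← hg0]
    simpa using this
  have j1 : ‖JJ α 1 τ‖ ≤ g1 := by
    have := JJ_bd h1 h2 (n := 1) (by norm_num) hτ
    rw [← hg1]
    have e : α - 1 + ((1 : ℕ) : ℝ) = α := by push_cast; ring
    rwa [e] at this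
  have j2 : ‖JJ α 2 τ‖ ≤ g2 := by
    have := JJ_bd h1 h2 (n := 2) (by norm_num) hτ
    rw [← hg2]
    have e : α - 1 + ((2 : ℕ) : ℝ) = α + 1 := by push_cast; ring
    rwa [e] at this
  have je : ‖JJ α 0 τ - (cc α ^ 2)⁻¹ * (g0 : ℝ)‖ ≤ 3 * g3 := by
    have := JJ_err h1 h2 hτ
    rwa [hg0, hg3] at this
  have g0n : 0 ≤ g0 := (norm_nonneg _).trans j0
  have g1n : 0 ≤ g1 := (norm_nonneg _).trans j1
  have g2n : 0 ≤ g2 := (norm_nonneg _).trans j2
  have key : psi α τ * (PP τ)⁻¹ -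
      ((A0 α θ : ℝ) * QQ θ τ + ((kap α * g0 / α : ℝ) : ℂ) * bh α) =
      (α : ℂ)⁻¹ * (sg α * ((-2 * JJ α 1 τ - (cexp (θ * I))⁻¹ * JJ α 2 τ -
        cexp (θ * I) * JJ α 0 τ) * (QQ θ τ * (PP τ)⁻¹))) +
      (α : ℂ)⁻¹ * (sg α * (-2 * JJ α 1 τ - I * JJ α 2 τ)) +
      (α : ℂ)⁻¹ * (sg α * (I * (JJ α 0 τ - (cc α ^ 2)⁻¹ * (g0 : ℝ)))) +
      sg α ^ 2 * ((JJ α 1 τ ^ 2 - JJ α 0 τ * JJ α 2 τ) * (PP τ)⁻¹) := by
    rw [psi_dec h1 h2 hθ hτ]
    have e1 : ((A0 α θ : ℝ) : ℂ) = ((2 * (1 + Real.sin θ) / α ^ 2 : ℝ) : ℂ) := rfl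
    rw [e1]
    generalize ((2 * (1 + Real.sin θ) / α ^ 2 : ℝ) : ℂ) = A
    have e2 : ((kap α * g0 / α : ℝ) : ℂ) * bh α =
        (α : ℂ)⁻¹ * (sg α * (I * ((cc α ^ 2)⁻¹ * (g0 : ℝ)))) := by
      rw [sg_eq]
      unfold bh
      push_cast
      field_simp
    rw [e2]
    have hPP : PP τ * (PP τ)⁻¹ = 1 := mul_inv_cancel₀ hP0
    generalize JJ α 0 τ = J0
    generalize JJ α 1 τ = J1
    generalize JJ α 2 τ = J2
    generalize QQ θ τ = Q
    generalize (cexp (θ * I))⁻¹ = p'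
    generalize cexp (θ * I) = p
    generalize (PP τ)⁻¹ = P' at hPP ⊢
    generalize PP τ = P at hPP ⊢
    generalize (cc α ^ 2)⁻¹ = c2
    generalize sg α = s
    generalize (α : ℂ)⁻¹ = b
    linear_combination (A * Q + b * s * (-2 * J1 - J2 * I + J0 * I)) * hPP
  rw [key]
  have hPi : ‖(PP τ)⁻¹‖ = 1 := by rw [norm_inv, hP, inv_one]
  have hpi' : ‖(cexp (θ * I))⁻¹‖ = 1 := by rw [norm_inv, hp, inv_one]
  have t1 : ‖(α : ℂ)⁻¹ * (sg α * ((-2 * JJ α 1 τ - (cexp (θ * I))⁻¹ * JJ α 2 τ -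
        cexp (θ * I) * JJ α 0 τ) * (QQ θ τ * (PP τ)⁻¹)))‖ ≤
      kap α * (2 * g1 + g2 + g0) * ‖QQ θ τ‖ := by
    rw [norm_mul, norm_mul, norm_mul, norm_mul, hPi, mul_one, hsn]
    have h3 : ‖-2 * JJ α 1 τ - (cexp (θ * I))⁻¹ * JJ α 2 τ - cexp (θ * I) * JJ α 0 τ‖ ≤
        2 * g1 + g2 + g0 := by
      refine (norm_sub_le _ _).trans (add_le_add ((norm_sub_le _ _).trans (add_le_add ?_ ?_)) ?_)
      · rw [norm_mul, norm_neg]
        have : ‖(2 : ℂ)‖ = 2 := by norm_num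
        rw [this]
        linarith
      · rw [norm_mul, hpi', one_mul]
        exact j2
      · rw [norm_mul, hp, one_mul]
        exact j0
    have h4 : kap α * (‖-2 * JJ α 1 τ - (cexp (θ * I))⁻¹ * JJ α 2 τ -
        cexp (θ * I) * JJ α 0 τ‖ * ‖QQ θ τ‖) ≤ kap α * ((2 * g1 + g2 + g0) * ‖QQ θ τ‖) :=
      mul_le_mul_of_nonneg_left (mul_le_mul_of_nonneg_right h3 (norm_nonneg _)) hk.le
    have h5 : 0 ≤ kap α * (‖-2 * JJ α 1 τ - (cexp (θ * I))⁻¹ * JJ α 2 τ -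
        cexp (θ * I) * JJ α 0 τ‖ * ‖QQ θ τ‖) := by positivity
    calc _ ≤ 1 * (kap α * (‖-2 * JJ α 1 τ - (cexp (θ * I))⁻¹ * JJ α 2 τ -
        cexp (θ * I) * JJ α 0 τ‖ * ‖QQ θ τ‖)) := mul_le_mul_of_nonneg_right hαn h5
      _ ≤ _ := by linarith
  have t2 : ‖(α : ℂ)⁻¹ * (sg α * (-2 * JJ α 1 τ - I * JJ α 2 τ))‖ ≤ kap α * (2 * g1 + g2) := by
    rw [norm_mul, norm_mul, hsn]
    have h3 : ‖-2 * JJ α 1 τ - I * JJ α 2 τ‖ ≤ 2 * g1 + g2 := by
      refine (norm_sub_le _ _).trans (add_le_add ?_ ?_)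
      · rw [norm_mul, norm_neg]
        have : ‖(2 : ℂ)‖ = 2 := by norm_num
        rw [this]
        linarith
      · rw [norm_mul, Complex.norm_I, one_mul]
        exact j2
    calc _ ≤ 1 * (kap α * ‖-2 * JJ α 1 τ - I * JJ α 2 τ‖) :=
          mul_le_mul_of_nonneg_right hαn (by positivity)
      _ ≤ _ := by
          rw [one_mul]
          exact mul_le_mul_of_nonneg_left h3 hk.le
  have t3 : ‖(α : ℂ)⁻¹ * (sg α * (I * (JJ α 0 τ - (cc α ^ 2)⁻¹ * (g0 : ℝ))))‖ ≤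
      kap α * (3 * g3) := by
    rw [norm_mul, norm_mul, norm_mul, Complex.norm_I, one_mul, hsn]
    calc _ ≤ 1 * (kap α * ‖JJ α 0 τ - (cc α ^ 2)⁻¹ * (g0 : ℝ)‖) :=
          mul_le_mul_of_nonneg_right hαn (by positivity)
      _ ≤ _ := by
          rw [one_mul]
          exact mul_le_mul_of_nonneg_left je hk.le
  have t4 : ‖sg α ^ 2 * ((JJ α 1 τ ^ 2 - JJ α 0 τ * JJ α 2 τ) * (PP τ)⁻¹)‖ ≤
      kap α ^ 2 * (g1 ^ 2 + g0 * g2) := by
    rw [norm_mul, norm_mul, norm_pow, hPi, mul_one, hsn]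
    apply mul_le_mul_of_nonneg_left _ (by positivity)
    refine (norm_sub_le _ _).trans (add_le_add ?_ ?_)
    · rw [norm_pow]
      exact pow_le_pow_left₀ (norm_nonneg _) j1 2
    · rw [norm_mul]
      exact mul_le_mul j0 j2 (norm_nonneg _) g0n
  refine (norm_add_le _ _).trans (add_le_add ((norm_add_le _ _).trans (add_le_add
    ((norm_add_le _ _).trans (add_le_add t1 t2)) t3)) t4)

lemma C1_nonneg : 0 ≤ C1 := integral_nonneg fun y => by positivity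

lemma main_est : ∀ᶠ τ : ℝ in atTop, ∀ α θ : ℝ, 7 / 4 ≤ α → α < 2 →
    α * (θ + Real.pi / 2) = 2 * Real.pi →
    ‖psi α τ * (PP τ)⁻¹ -
      ((A0 α θ : ℝ) * QQ θ τ + ((kap α * gf (α - 1) τ / α : ℝ) : ℂ) * bh α)‖ ≤
      1 / 100 * ‖QQ θ τ‖ + 1 / 100 * (kap α * gf (α - 1) τ) := by
  set K := C1 * Real.exp 4 with hK
  have hC := C1_nonneg
  have l1 : Tendsto (fun τ : ℝ => (6 * K + 2 * C1 * K) * Real.exp (-Real.log τ)) atTop (𝓝 0) := by
    have := (Real.tendsto_exp_neg_atTop_nhds_zero.comp Real.tendsto_log_atTop).const_mul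
      (6 * K + 2 * C1 * K)
    simpa [Function.comp_def] using this
  have l2 : Tendsto (fun τ : ℝ => 4 * C1 * Real.exp (-(3 / 4 * Real.log τ))) atTop (𝓝 0) := by
    have := (Real.tendsto_exp_neg_atTop_nhds_zero.comp
      (Real.tendsto_log_atTop.const_mul_atTop (by norm_num : (0 : ℝ) < 3 / 4))).const_mul (4 * C1)
    simpa [Function.comp_def] using this
  filter_upwards [eventually_ge_atTop (1 : ℝ),
    l1.eventually (ge_mem_nhds (by norm_num : (0 : ℝ) < 1 / 100)),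
    l2.eventually (ge_mem_nhds (by norm_num : (0 : ℝ) < 1 / 100))] with τ hτ1 hl1 hl2
  intro α θ h1 h2 hθ
  have hτ : 0 < τ := by linarith
  have h := main_alg h1 h2 hθ hτ (gf (α - 1) τ) (gf α τ) (gf (α + 1) τ) (gf (2 * α - 1) τ)
    rfl rfl rfl rfl
  refine h.trans ?_
  set l := Real.log τ with hl
  have hl0 : 0 ≤ l := Real.log_nonneg hτ1
  set x := Real.exp (-l) with hx
  set y := Real.exp (-(3 / 4 * l)) with hy
  set ρ := Real.exp (-((α - 1) * l)) with hρ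
  have hx0 : 0 < x := Real.exp_pos _
  have hx1 : x ≤ 1 := Real.exp_le_one_iff.mpr (by linarith)
  have hρ0 : 0 < ρ := Real.exp_pos _
  have hρy : ρ ≤ y := by
    rw [hρ, hy, Real.exp_le_exp]
    nlinarith
  have hρ1 : ρ ≤ 1 := Real.exp_le_one_iff.mpr (by nlinarith)
  have a0 := gf_upper (a := α - 1) (by linarith) (by linarith) hτ
  have b0 := gf_lower (a := α - 1) (by linarith) (by linarith) hτ
  have a1 := gf_upper (a := α) (by linarith) (by linarith) hτ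
  have a2 := gf_upper (a := α + 1) (by linarith) (by linarith) hτ
  have a3 := gf_upper (a := 2 * α - 1) (by linarith) (by linarith) hτ
  rw [← hl, ← hρ] at a0 b0
  have e1 : Real.exp (-(α * l)) = ρ * x := by
    rw [hρ, hx, ← Real.exp_add]; ring_nf
  have e2 : Real.exp (-((α + 1) * l)) ≤ ρ * x := by
    rw [← e1, Real.exp_le_exp]; nlinarith
  have e3 : Real.exp (-((2 * α - 1) * l)) ≤ ρ * x := by
    rw [← e1, Real.exp_le_exp]; nlinarith
  rw [← hl, e1] at a1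
  rw [← hl] at a2 a3
  have a2' : gf (α + 1) τ ≤ C1 * (ρ * x) := a2.trans (mul_le_mul_of_nonneg_left e2 hC)
  have a3' : gf (2 * α - 1) τ ≤ C1 * (ρ * x) := a3.trans (mul_le_mul_of_nonneg_left e3 hC)
  have n0 := gf_nonneg (α - 1) τ
  have n1 := gf_nonneg α τ
  have n2 := gf_nonneg (α + 1) τ
  set g0 := gf (α - 1) τ with hg0
  set g1 := gf α τ with hg1
  set g2 := gf (α + 1) τ with hg2
  set g3 := gf (2 * α - 1) τ with hg3
  have hρg : ρ ≤ Real.exp 4 * g0 := by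
    have h4 : Real.exp 4 * (Real.exp (-4) * ρ) = ρ := by
      rw [← mul_assoc, ← Real.exp_add]
      simp
    rw [← h4]
    exact mul_le_mul_of_nonneg_left b0 (Real.exp_pos 4).le
  have hCx : C1 * (ρ * x) ≤ K * x * g0 := by
    have : C1 * (ρ * x) ≤ C1 * ((Real.exp 4 * g0) * x) :=
      mul_le_mul_of_nonneg_left (mul_le_mul_of_nonneg_right hρg hx0.le) hC
    refine this.trans (le_of_eq ?_)
    rw [hK]; ring
  have hk := kap_pos h1 h2
  have hk1 := kap_le α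
  have hC0 : g0 ≤ C1 := a0.trans (by nlinarith)
  have hC1' : g1 ≤ C1 := a1.trans (by
    have : ρ * x ≤ 1 := by nlinarith
    nlinarith)
  have q1 : g1 ≤ K * x * g0 := a1.trans hCx
  have q2 : g2 ≤ K * x * g0 := a2'.trans hCx
  have q3 : g3 ≤ K * x * g0 := a3'.trans hCx
  have hQ := norm_nonneg (QQ θ τ)
  -- first term
  have r1 : kap α * (2 * g1 + g2 + g0) ≤ 1 / 100 := by
    have h5 : 2 * g1 + g2 + g0 ≤ 4 * C1 * y := by
      have h6 : C1 * (ρ * x) ≤ C1 * y := mul_le_mul_of_nonneg_left (by nlinarith) hC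
      have h7 : C1 * ρ ≤ C1 * y := mul_le_mul_of_nonneg_left hρy hC
      linarith
    have h8 : 0 ≤ 2 * g1 + g2 + g0 := by positivity
    calc kap α * (2 * g1 + g2 + g0) ≤ 1 * (2 * g1 + g2 + g0) :=
          mul_le_mul_of_nonneg_right hk1 h8
      _ ≤ 1 / 100 := by linarith
  have r2 : kap α * (2 * g1 + g2) + kap α * (3 * g3) + kap α ^ 2 * (g1 ^ 2 + g0 * g2) ≤
      1 / 100 * (kap α * g0) := by
    have h5 : g1 ^ 2 + g0 * g2 ≤ 2 * C1 * (K * x * g0) := by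
      have h6 : g1 ^ 2 ≤ C1 * (K * x * g0) := by
        rw [sq]
        exact mul_le_mul hC1' q1 n1 hC
      have h7 : g0 * g2 ≤ C1 * (K * x * g0) := mul_le_mul hC0 q2 n2 hC
      linarith
    have h8 : kap α ^ 2 * (g1 ^ 2 + g0 * g2) ≤ kap α * (2 * C1 * (K * x * g0)) := by
      have h9 : 0 ≤ g1 ^ 2 + g0 * g2 := by positivity
      calc kap α ^ 2 * (g1 ^ 2 + g0 * g2) = kap α * (kap α * (g1 ^ 2 + g0 * g2)) := by ring
        _ ≤ kap α * (1 * (g1 ^ 2 + g0 * g2)) :=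
            mul_le_mul_of_nonneg_left (mul_le_mul_of_nonneg_right hk1 h9) hk.le
        _ ≤ _ := by
            rw [one_mul]
            exact mul_le_mul_of_nonneg_left h5 hk.le
    have h10 : kap α * (2 * g1 + g2) + kap α * (3 * g3) ≤ kap α * (6 * (K * x * g0)) := by
      rw [← mul_add]
      apply mul_le_mul_of_nonneg_left _ hk.le
      linarith
    have h11 : kap α * (6 * (K * x * g0)) + kap α * (2 * C1 * (K * x * g0)) =
        (6 * K + 2 * C1 * K) * x * (kap α * g0) := by ring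
    have h12 : (6 * K + 2 * C1 * K) * x * (kap α * g0) ≤ 1 / 100 * (kap α * g0) :=
      mul_le_mul_of_nonneg_right hl1 (by positivity)
    linarith
  have r3 := mul_le_mul_of_nonneg_right r1 hQ
  linarith

end V1171.MLP
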