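import Pool.Agent.V1171.MLP.Rep

set_option autoImplicit false

/-! Closed form of the kernels. -/

namespace V1171.MLP

open MeasureTheory Filter Topology Set Complex V1171.MLZ

noncomputable def w1 (α : ℝ) : ℂ := cexp (((-(3 * (Real.pi * α / 2)) : ℝ) : ℂ) * I)

noncomputable def w2 (α : ℝ) : ℂ := cexp (((Real.pi * α / 2 : ℝ) : ℂ) * I)

/-- the common denominator -/
noncomputable def Dk (α y : ℝ) : ℂ :=
  ((((Real.exp (α * y) : ℝ) : ℂ) - w1 α) * (((Real.exp (α * y) : ℝ) : ℂ) - w2 α))⁻¹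

lemma w1_norm (α : ℝ) : ‖w1 α‖ = 1 := Complex.norm_exp_ofReal_mul_I _
lemma w2_norm (α : ℝ) : ‖w2 α‖ = 1 := Complex.norm_exp_ofReal_mul_I _

lemma w1_re {α : ℝ} (h1 : 7 / 4 ≤ α) (h2 : α < 2) : (w1 α).re ≤ 0 := by
  have hpi := Real.pi_pos
  unfold w1
  rw [Complex.exp_ofReal_mul_I_re, Real.cos_neg, ← Real.cos_sub_two_pi]
  apply Real.cos_nonpos_of_pi_div_two_le_of_le
  · nlinarith
  · nlinarith

lemma w2_re {α : ℝ} (h1 : 7 / 4 ≤ α) (h2 : α < 2) : (w2 α).re ≤ 0 := by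
  have hpi := Real.pi_pos
  unfold w2
  rw [Complex.exp_ofReal_mul_I_re]
  apply Real.cos_nonpos_of_pi_div_two_le_of_le
  · nlinarith
  · nlinarith

lemma w1w2 (α : ℝ) : w1 α * w2 α = cc α ^ 2 := by
  unfold w1 w2 cc
  rw [← Complex.exp_add, ← Complex.exp_nat_mul]
  congr 1
  push_cast
  ring

lemma dist_w {E : ℝ} (hE : 0 < E) {w : ℂ} (hw : ‖w‖ = 1) (hr : w.re ≤ 0) :
    1 + E ^ 2 ≤ ‖(E : ℂ) - w‖ ^ 2 := by
  rw [← Complex.normSq_eq_norm_sq, Complex.normSq_apply]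
  have h1 : w.re * w.re + w.im * w.im = 1 := by
    rw [← Complex.normSq_apply, Complex.normSq_eq_norm_sq, hw]
    norm_num
  simp
  nlinarith

lemma Dk_norm {α : ℝ} (h1 : 7 / 4 ≤ α) (h2 : α < 2) (y : ℝ) :
    ‖Dk α y‖ * (1 + Real.exp (α * y) ^ 2) ≤ 1 := by
  have hE := Real.exp_pos (α * y)
  have d1 := dist_w hE (w1_norm α) (w1_re h1 h2)
  have d2 := dist_w hE (w2_norm α) (w2_re h1 h2)
  unfold Dk
  rw [norm_inv, norm_mul]
  set a := ‖((Real.exp (α * y) : ℝ) : ℂ) - w1 α‖ with ha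
  set b := ‖((Real.exp (α * y) : ℝ) : ℂ) - w2 α‖ with hb
  set E := Real.exp (α * y) with hEE
  have ha0 : 0 ≤ a := norm_nonneg _
  have hb0 : 0 ≤ b := norm_nonneg _
  have hab : 1 + E ^ 2 ≤ a * b := by
    have h3 : (1 + E ^ 2) ^ 2 ≤ (a * b) ^ 2 := by
      have := mul_le_mul d1 d2 (by positivity) (by positivity)
      nlinarith
    exact (pow_le_pow_iff_left₀ (by positivity) (by positivity) (by norm_num)).mp h3
  have hab0 : 0 < a * b := by
    have : 0 < 1 + E ^ 2 := by positivity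
    linarith
  rw [inv_mul_le_iff₀ hab0]
  linarith

lemma Dk_ne {α : ℝ} (h1 : 7 / 4 ≤ α) (h2 : α < 2) (y : ℝ) :
    ((Real.exp (α * y) : ℝ) : ℂ) - w1 α ≠ 0 ∧ ((Real.exp (α * y) : ℝ) : ℂ) - w2 α ≠ 0 := by
  have hE := Real.exp_pos (α * y)
  constructor
  · intro h
    have d1 := dist_w hE (w1_norm α) (w1_re h1 h2)
    rw [h, norm_zero] at d1
    nlinarith
  · intro h
    have d1 := dist_w hE (w2_norm α) (w2_re h1 h2)
    rw [h, norm_zero] at d1
    nlinarith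

lemma Dk_cont {α : ℝ} (h1 : 7 / 4 ≤ α) (h2 : α < 2) : Continuous (Dk α) := by
  unfold Dk
  apply Continuous.inv₀
  · have : Continuous fun y : ℝ => ((Real.exp (α * y) : ℝ) : ℂ) := by
      apply Complex.continuous_ofReal.comp
      fun_prop
    fun_prop
  · intro y
    exact mul_ne_zero (Dk_ne h1 h2 y).1 (Dk_ne h1 h2 y).2

/-- weight -/
noncomputable def jk (α : ℝ) (n : ℕ) (y : ℝ) : ℂ := ((Real.exp ((α - 1 + n) * y) : ℝ) : ℂ) * Dk α y

lemma jk_bd {α : ℝ} (h1 : 7 / 4 ≤ α) (h2 : α < 2) {n : ℕ} (hn : n ≤ 2) (y : ℝ) :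
    ‖jk α n y‖ ≤ Real.exp (-((α - 1) * |y|)) := by
  unfold jk
  have hD := Dk_norm h1 h2 y
  have hD0 := norm_nonneg (Dk α y)
  have hE := Real.exp_pos (α * y)
  have hn' : (n : ℝ) ≤ 2 := by exact_mod_cast hn
  have hn0 : (0 : ℝ) ≤ n := Nat.cast_nonneg n
  rw [norm_mul, Complex.norm_real, Real.norm_of_nonneg (Real.exp_pos _).le]
  rcases le_total 0 y with hy | hy
  · rw [abs_of_nonneg hy]
    have h3 : ‖Dk α y‖ ≤ Real.exp (-(2 * (α * y))) := by
      have e : Real.exp (-(2 * (α * y))) * Real.exp (α * y) ^ 2 = 1 := by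
        rw [← Real.exp_nat_mul, ← Real.exp_add]
        push_cast
        ring_nf
        simp
      have h4 : ‖Dk α y‖ * Real.exp (α * y) ^ 2 ≤ 1 := by nlinarith
      have h5 : ‖Dk α y‖ = ‖Dk α y‖ * Real.exp (α * y) ^ 2 * Real.exp (-(2 * (α * y))) := by
        linear_combination (-‖Dk α y‖) * e
      rw [h5]
      have := Real.exp_pos (-(2 * (α * y)))
      nlinarith
    calc Real.exp ((α - 1 + n) * y) * ‖Dk α y‖
        ≤ Real.exp ((α - 1 + n) * y) * Real.exp (-(2 * (α * y))) :=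
          mul_le_mul_of_nonneg_left h3 (Real.exp_pos _).le
      _ = Real.exp ((n - 1 - α) * y) := by rw [← Real.exp_add]; ring_nf
      _ ≤ Real.exp (-((α - 1) * y)) := by
          rw [Real.exp_le_exp]
          nlinarith
  · rw [abs_of_nonpos hy]
    have h3 : ‖Dk α y‖ ≤ 1 := by nlinarith [mul_nonneg hD0 (sq_nonneg (Real.exp (α * y)))]
    calc Real.exp ((α - 1 + n) * y) * ‖Dk α y‖
        ≤ Real.exp ((α - 1 + n) * y) * 1 :=
          mul_le_mul_of_nonneg_left h3 (Real.exp_pos _).le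
      _ = Real.exp ((α - 1 + n) * y) := mul_one _
      _ ≤ Real.exp (-((α - 1) * -y)) := by
          rw [Real.exp_le_exp]
          nlinarith

lemma jk_cont {α : ℝ} (h1 : 7 / 4 ≤ α) (h2 : α < 2) (n : ℕ) : Continuous (jk α n) := by
  unfold jk
  apply Continuous.mul _ (Dk_cont h1 h2)
  apply Complex.continuous_ofReal.comp
  fun_prop

lemma jk_int {α : ℝ} (h1 : 7 / 4 ≤ α) (h2 : α < 2) {n : ℕ} (hn : n ≤ 2) :
    Integrable (jk α n) :=
  Integrable.mono' (exp_abs_int (α := α - 1) (by linarith)) (jk_cont h1 h2 n).aestronglyMeasurable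
    (Eventually.of_forall fun y => jk_bd h1 h2 hn y)

/-- general form of the jump -/
lemma kq_eq {α : ℝ} (h1 : 7 / 4 ≤ α) (h2 : α < 2) (γ y : ℝ) :
    kq α γ y = ((Real.exp (γ * y) : ℝ) : ℂ) *
      (cexp (((Real.pi * (α - γ) : ℝ) : ℂ) * I) * (((Real.exp (α * y) : ℝ) : ℂ) - w1 α) -
       cexp (-((Real.pi * (α - γ) : ℝ) : ℂ) * I) * (((Real.exp (α * y) : ℝ) : ℂ) - w2 α)) *
      Dk α y := by
  obtain ⟨n1, n2⟩ := Dk_ne h1 h2 y
  have a1 : ph α γ (y - Real.pi * I) = ((Real.exp (γ * y) : ℝ) : ℂ) *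
      cexp (((Real.pi * (α - γ) : ℝ) : ℂ) * I) * (((Real.exp (α * y) : ℝ) : ℂ) - w2 α)⁻¹ := by
    have x1 : cexp (α * (y - Real.pi * I)) =
        cexp (-(Real.pi * α * I)) * ((Real.exp (α * y) : ℝ) : ℂ) := by
      rw [Complex.ofReal_exp, ← Complex.exp_add]
      congr 1
      push_cast
      ring
    have x2 : cc α = cexp (-(Real.pi * α * I)) * w2 α := by
      unfold cc w2
      rw [← Complex.exp_add]
      congr 1
      push_cast
      ring
    have e1 : cexp (α * (y - Real.pi * I)) - cc α =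
        cexp (-(Real.pi * α * I)) * (((Real.exp (α * y) : ℝ) : ℂ) - w2 α) := by
      linear_combination x1 - x2
    have x3 : cexp (γ * (y - Real.pi * I)) * cexp (Real.pi * α * I) =
        ((Real.exp (γ * y) : ℝ) : ℂ) * cexp (((Real.pi * (α - γ) : ℝ) : ℂ) * I) := by
      rw [Complex.ofReal_exp, ← Complex.exp_add, ← Complex.exp_add]
      congr 1
      push_cast
      ring
    unfold ph dn
    rw [e1, mul_inv, ← Complex.exp_neg, neg_neg, ← mul_assoc, x3]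
  have a2 : ph α γ (y + Real.pi * I) = ((Real.exp (γ * y) : ℝ) : ℂ) *
      cexp (-((Real.pi * (α - γ) : ℝ) : ℂ) * I) * (((Real.exp (α * y) : ℝ) : ℂ) - w1 α)⁻¹ := by
    have x1 : cexp (α * (y + Real.pi * I)) =
        cexp (Real.pi * α * I) * ((Real.exp (α * y) : ℝ) : ℂ) := by
      rw [Complex.ofReal_exp, ← Complex.exp_add]
      congr 1
      push_cast
      ring
    have x2 : cc α = cexp (Real.pi * α * I) * w1 α := by
      unfold cc w1
      rw [← Complex.exp_add]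
      congr 1
      push_cast
      ring
    have e1 : cexp (α * (y + Real.pi * I)) - cc α =
        cexp (Real.pi * α * I) * (((Real.exp (α * y) : ℝ) : ℂ) - w1 α) := by
      linear_combination x1 - x2
    have x3 : cexp (γ * (y + Real.pi * I)) * cexp (-(Real.pi * α * I)) =
        ((Real.exp (γ * y) : ℝ) : ℂ) * cexp (-((Real.pi * (α - γ) : ℝ) : ℂ) * I) := by
      rw [Complex.ofReal_exp, ← Complex.exp_add, ← Complex.exp_add]
      congr 1
      push_cast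
      ring
    unfold ph dn
    rw [e1, mul_inv, ← Complex.exp_neg, ← mul_assoc, x3]
  unfold kq
  rw [a1, a2]
  unfold Dk
  generalize ((Real.exp (α * y) : ℝ) : ℂ) - w1 α = A at n1 ⊢
  generalize ((Real.exp (α * y) : ℝ) : ℂ) - w2 α = B at n2 ⊢
  generalize cexp (((Real.pi * (α - γ) : ℝ) : ℂ) * I) = a
  generalize cexp (-((Real.pi * (α - γ) : ℝ) : ℂ) * I) = b
  generalize ((Real.exp (γ * y) : ℝ) : ℂ) = X
  rw [mul_inv]
  have c1 : A * A⁻¹ = 1 := mul_inv_cancel₀ n1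
  have c2 : B * B⁻¹ = 1 := mul_inv_cancel₀ n2
  linear_combination (-X * a * B⁻¹) * c1 + (X * b * A⁻¹) * c2

/-- the number `sin(π α) / π` times `(-i)^α` -/
noncomputable def sg (α : ℝ) : ℂ := cc α * ((Real.sin (Real.pi * α) / Real.pi : ℝ) : ℂ)

lemma w_diff (α : ℝ) : w2 α - w1 α = 2 * I * cc α * Real.sin (Real.pi * α) := by
  unfold w2 w1 cc
  rw [Complex.ofReal_sin, Complex.sin]
  have e1 : cexp (((Real.pi * α / 2 : ℝ) : ℂ) * I) = cexp (((-(Real.pi * α / 2) : ℝ) : ℂ) * I) *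
      cexp (((Real.pi * α : ℝ) : ℂ) * I) := by
    rw [← Complex.exp_add]
    congr 1
    push_cast
    ring
  have e2 : cexp (((-(3 * (Real.pi * α / 2)) : ℝ) : ℂ) * I) =
      cexp (((-(Real.pi * α / 2) : ℝ) : ℂ) * I) * cexp (-((Real.pi * α : ℝ) : ℂ) * I) := by
    rw [← Complex.exp_add]
    congr 1
    push_cast
    ring
  rw [e1, e2]
  ring_nf
  rw [I_sq]
  ring

lemma kq_zero {α : ℝ} (h1 : 7 / 4 ≤ α) (h2 : α < 2) :
    kq α (α - 1) = fun y => -(2 * Real.pi * I * sg α) * jk α 0 y := by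
  funext y
  rw [kq_eq h1 h2]
  have e : ((Real.pi * (α - (α - 1)) : ℝ) : ℂ) = Real.pi := by push_cast; ring
  have e' : cexp (-(Real.pi : ℂ) * I) = -1 := by
    rw [neg_mul, Complex.exp_neg, Complex.exp_pi_mul_I]
    norm_num
  rw [e, Complex.exp_pi_mul_I, e']
  have e2 : (-1 * (((Real.exp (α * y) : ℝ) : ℂ) - w1 α) -
      -1 * (((Real.exp (α * y) : ℝ) : ℂ) - w2 α)) = -(w2 α - w1 α) := by
    ring
  rw [e2, w_diff]
  unfold jk sg
  have hpi : (Real.pi : ℂ) ≠ 0 := by exact_mod_cast Real.pi_pos.ne'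
  push_cast
  rw [add_zero]
  field_simp

lemma kq_one {α : ℝ} (h1 : 7 / 4 ≤ α) (h2 : α < 2) :
    kq α α = fun y => (2 * Real.pi * I * sg α) * jk α 1 y := by
  funext y
  rw [kq_eq h1 h2]
  have e : ((Real.pi * (α - α) : ℝ) : ℂ) = 0 := by push_cast; ring
  rw [e, neg_zero, zero_mul, Complex.exp_zero]
  have e2 : (1 * (((Real.exp (α * y) : ℝ) : ℂ) - w1 α) -
      1 * (((Real.exp (α * y) : ℝ) : ℂ) - w2 α)) = (w2 α - w1 α) := by
    ring
  rw [e2, w_diff]
  unfold jk sg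
  have hpi : (Real.pi : ℂ) ≠ 0 := by exact_mod_cast Real.pi_pos.ne'
  push_cast
  have e3 : (α : ℂ) - 1 + 1 = α := by ring
  rw [e3]
  field_simp

lemma kq_two {α : ℝ} (h1 : 7 / 4 ≤ α) (h2 : α < 2) :
    (fun y => cc α * kq α 1 y) = fun y => -(2 * Real.pi * I * sg α) * jk α 2 y := by
  funext y
  rw [kq_eq h1 h2]
  have e : ((Real.pi * (α - 1) : ℝ) : ℂ) * I = ((Real.pi * α : ℝ) : ℂ) * I - Real.pi * I := by
    push_cast; ring
  rw [neg_mul, Complex.exp_neg, e, Complex.exp_sub, Complex.exp_pi_mul_I]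
  set u := cexp (((Real.pi * α : ℝ) : ℂ) * I) with hu
  have hu0 : u ≠ 0 := Complex.exp_ne_zero _
  have b1 : w2 α = cc α * u := by
    unfold w2 cc
    rw [hu, ← Complex.exp_add]
    congr 1
    push_cast
    ring
  have b2 : w1 α = cc α * u⁻¹ := by
    unfold w1 cc
    rw [hu, ← Complex.exp_neg, ← Complex.exp_add]
    congr 1
    push_cast
    ring
  have b3 : (Real.sin (Real.pi * α) : ℂ) = (u⁻¹ - u) * I / 2 := by
    rw [Complex.ofReal_sin, Complex.sin, hu, ← Complex.exp_neg, neg_mul]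
  have e2 : (u / -1 * (((Real.exp (α * y) : ℝ) : ℂ) - w1 α) -
      (u / -1)⁻¹ * (((Real.exp (α * y) : ℝ) : ℂ) - w2 α)) =
      -(2 * I * Real.sin (Real.pi * α)) * ((Real.exp (α * y) : ℝ) : ℂ) := by
    rw [b3, b1, b2]
    have : (2 * I * ((u⁻¹ - u) * I / 2)) = (u - u⁻¹) := by
      ring_nf
      rw [I_sq]
      ring
    rw [this]
    field_simp
    ring
  rw [e2]
  unfold jk sg
  have hpi : (Real.pi : ℂ) ≠ 0 := by exact_mod_cast Real.pi_pos.ne'
  have e3 : ((Real.exp (1 * y) : ℝ) : ℂ) * ((Real.exp (α * y) : ℝ) : ℂ) =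
      ((Real.exp ((α - 1 + (2 : ℕ)) * y) : ℝ) : ℂ) := by
    rw [← Complex.ofReal_mul, ← Real.exp_add]
    congr 2
    push_cast
    ring
  rw [← e3]
  push_cast
  field_simp

end V1171.MLP
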