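import Pool.Agent.V1171.MLP.Ctr

set_option autoImplicit false

/-! Two-parameter Mittag-Leffler functions on the ray `arg z = -π α / 2`. -/

namespace V1171.MLP

open MeasureTheory Filter Topology Set Complex V1171.MLZ

noncomputable def et (k : ℕ) (α β τ : ℝ) : ℂ :=
  (cc α * ((τ ^ α : ℝ) : ℂ)) ^ k * (((Real.Gamma (α * k + β))⁻¹ : ℝ) : ℂ)

noncomputable def EE (α β τ : ℝ) : ℂ := ∑' k : ℕ, et k α β τ

lemma gam_lower (k : ℕ) {α β : ℝ} (h1 : 1 ≤ α) (hβ : 1 ≤ β) (hβ2 : β ≤ 2) :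
    (k.factorial : ℝ) ≤ 2 * Real.Gamma (α * k + β) := by
  rcases Nat.eq_zero_or_pos k with rfl | hk
  · have e2 : Real.Gamma (β + 1) = β * Real.Gamma β := Real.Gamma_add_one (by linarith)
    have e3 : Real.Gamma 2 ≤ Real.Gamma (β + 1) := by
      apply Real.Gamma_strictMonoOn_Ici.monotoneOn
      · rw [mem_Ici]
      · rw [mem_Ici]; linarith
      · linarith
    have h0 := Real.Gamma_pos_of_pos (by linarith : 0 < β)
    rw [Real.Gamma_two, e2] at e3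
    simp
    nlinarith
  · have hk1 : (1 : ℝ) ≤ k := by exact_mod_cast hk
    have e3 : Real.Gamma (k + 1) ≤ Real.Gamma (α * k + β) := by
      apply Real.Gamma_strictMonoOn_Ici.monotoneOn
      · rw [mem_Ici]; linarith
      · rw [mem_Ici]; nlinarith
      · nlinarith
    rw [Real.Gamma_nat_eq_factorial] at e3
    have h0 : (0 : ℝ) < k.factorial := by exact_mod_cast k.factorial_pos
    linarith

lemma et_bd (k : ℕ) {α β τ M : ℝ} (h1 : 1 ≤ α) (h2 : α ≤ 2) (hβ : 1 ≤ β) (hβ2 : β ≤ 2)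
    (hτ : 0 ≤ τ) (hM : τ ≤ M) (hM1 : 1 ≤ M) :
    ‖et k α β τ‖ ≤ 2 * ((M ^ 2) ^ k / k.factorial) := by
  have hG : 0 < Real.Gamma (α * k + β) := Real.Gamma_pos_of_pos (by positivity)
  unfold et
  rw [norm_mul, norm_pow, norm_mul, cc_norm, one_mul, Complex.norm_real, Complex.norm_real,
    Real.norm_of_nonneg (Real.rpow_nonneg hτ _), Real.norm_of_nonneg (inv_nonneg.mpr hG.le)]
  have e1 : τ ^ α ≤ M ^ 2 := by
    calc τ ^ α ≤ M ^ α := Real.rpow_le_rpow hτ hM (by linarith)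
      _ ≤ M ^ (2 : ℝ) := Real.rpow_le_rpow_of_exponent_le hM1 h2
      _ = M ^ 2 := Real.rpow_two M
  have hf : (0 : ℝ) < k.factorial := by exact_mod_cast k.factorial_pos
  have e2 := gam_lower k h1 hβ hβ2
  have e3 : (Real.Gamma (α * k + β))⁻¹ ≤ 2 / k.factorial := by
    rw [inv_eq_one_div, div_le_div_iff₀ hG hf]
    linarith
  calc (τ ^ α) ^ k * (Real.Gamma (α * k + β))⁻¹ ≤ (M ^ 2) ^ k * (2 / k.factorial) :=
        mul_le_mul (pow_le_pow_left₀ (Real.rpow_nonneg hτ _) e1 k) e3 (inv_nonneg.mpr hG.le)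
          (by positivity)
    _ = _ := by ring

lemma et_sum_bd (M : ℝ) : Summable fun k : ℕ => 2 * ((M ^ 2) ^ k / (k.factorial : ℝ)) :=
  (Real.summable_pow_div_factorial _).mul_left 2

lemma cc_cont : Continuous cc := by
  unfold cc
  fun_prop

lemma EE_cont {M : ℝ} (hM : 1 ≤ M) :
    ContinuousOn (fun p : ℝ × ℝ × ℝ => EE p.1 p.2.1 p.2.2)
      (Icc 1 2 ×ˢ Icc 1 2 ×ˢ Icc 0 M) := by
  unfold EE
  apply continuousOn_tsum (u := fun k : ℕ => 2 * ((M ^ 2) ^ k / (k.factorial : ℝ))) _ (et_sum_bd M)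
  · rintro k ⟨α, β, τ⟩ ⟨hα, hβ, hτ⟩
    exact et_bd k hα.1 hα.2 hβ.1 hβ.2 hτ.1 hτ.2 hM
  · rintro k ⟨α, β, τ⟩ ⟨hα, hβ, hτ⟩
    simp only at hα hβ hτ
    have hα0 : (0 : ℝ) < α := by linarith [hα.1]
    have hβ0 : (0 : ℝ) < β := by linarith [hβ.1]
    have hG : Real.Gamma (α * k + β) ≠ 0 := (Real.Gamma_pos_of_pos (by positivity)).ne'
    apply ContinuousAt.continuousWithinAt
    unfold et
    apply ContinuousAt.mul
    · apply ContinuousAt.pow
      apply ContinuousAt.mul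
      · exact cc_cont.continuousAt.comp continuousAt_fst
      · apply Complex.continuous_ofReal.continuousAt.comp
        exact ContinuousAt.rpow (continuousAt_snd.comp continuousAt_snd) continuousAt_fst
          (Or.inr hα0)
    · apply Complex.continuous_ofReal.continuousAt.comp
      refine ContinuousAt.inv₀ (f := fun x : ℝ × ℝ × ℝ => Real.Gamma (x.1 * k + x.2.1)) ?_ hG
      have h3 : ContinuousAt Real.Gamma (α * k + β) := by
        apply (Real.differentiableAt_Gamma _).continuousAt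
        intro m
        have : (0 : ℝ) ≤ m := Nat.cast_nonneg m
        have : (0 : ℝ) ≤ α * k := by positivity
        linarith
      exact ContinuousAt.comp (x := (α, β, τ)) (f := fun x : ℝ × ℝ × ℝ => x.1 * k + x.2.1) h3
        (by fun_prop)

lemma EE_summable {α β τ : ℝ} (h1 : 1 ≤ α) (h2 : α ≤ 2) (hβ : 1 ≤ β) (hβ2 : β ≤ 2)
    (hτ : 0 ≤ τ) : Summable fun k => et k α β τ :=
  Summable.of_norm_bounded (et_sum_bd (τ + 1)) fun k =>
    et_bd k h1 h2 hβ hβ2 hτ (by linarith) (by linarith)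

noncomputable def um (α β τ : ℝ) : ℂ := ((τ ^ (β - 1) : ℝ) : ℂ) * EE α β τ

lemma et_lap (k : ℕ) {α β s : ℝ} (hα : 0 < α) (hβ : 0 < β) (hs : 0 < s) :
    IntegrableOn (fun τ : ℝ => ((Real.exp (-(s * τ)) * τ ^ (β - 1) : ℝ) : ℂ) * et k α β τ)
      (Ioi 0) ∧
    ∫ τ in Ioi (0 : ℝ), ((Real.exp (-(s * τ)) * τ ^ (β - 1) : ℝ) : ℂ) * et k α β τ =
      (cc α * ((s⁻¹ ^ α : ℝ) : ℂ)) ^ k * ((s⁻¹ ^ β : ℝ) : ℂ) ∧
    ∫ τ in Ioi (0 : ℝ), ‖((Real.exp (-(s * τ)) * τ ^ (β - 1) : ℝ) : ℂ) * et k α β τ‖ =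
      (s⁻¹ ^ α) ^ k * s⁻¹ ^ β := by
  have hpos : 0 < α * k + β := by positivity
  have hG := (Real.Gamma_pos_of_pos hpos).ne'
  have hs' : (0 : ℝ) < s⁻¹ := by positivity
  have e0 : (1 / s) ^ (α * k + β) = (s⁻¹ ^ α) ^ k * s⁻¹ ^ β := by
    rw [one_div, Real.rpow_add hs', Real.rpow_mul hs'.le, Real.rpow_natCast]
  have e1 : EqOn (fun τ : ℝ => ((Real.exp (-(s * τ)) * τ ^ (β - 1) : ℝ) : ℂ) * et k α β τ)
      (fun τ : ℝ => (((τ ^ (α * k + β - 1) * Real.exp (-(s * τ))) *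
        (Real.Gamma (α * k + β))⁻¹ : ℝ) : ℂ) * cc α ^ k) (Ioi 0) := by
    intro τ hτ
    simp only
    unfold et
    have : α * k + β - 1 = α * k + (β - 1) := by ring
    rw [this, Real.rpow_add hτ, Real.rpow_mul (le_of_lt hτ), Real.rpow_natCast, mul_pow]
    push_cast
    ring
  have hI := Real.integral_rpow_mul_exp_neg_mul_Ioi hpos hs
  have hint : IntegrableOn (fun τ : ℝ => τ ^ (α * k + β - 1) * Real.exp (-(s * τ))) (Ioi 0) := by
    apply Integrable.of_integral_ne_zero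
    rw [hI]
    have := Real.Gamma_pos_of_pos hpos
    positivity
  have hint2 : IntegrableOn (fun τ : ℝ => (((τ ^ (α * k + β - 1) * Real.exp (-(s * τ))) *
        (Real.Gamma (α * k + β))⁻¹ : ℝ) : ℂ) * cc α ^ k) (Ioi 0) :=
    ((hint.mul_const _).ofReal).mul_const _
  refine ⟨hint2.congr_fun e1.symm measurableSet_Ioi, ?_, ?_⟩
  · rw [setIntegral_congr_fun measurableSet_Ioi e1, integral_mul_const, integral_complex_ofReal,
      integral_mul_const, hI, e0, mul_pow]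
    rw [mul_inv_cancel_right₀ hG]
    push_cast
    ring
  · have e2 : EqOn (fun τ : ℝ => ‖((Real.exp (-(s * τ)) * τ ^ (β - 1) : ℝ) : ℂ) * et k α β τ‖)
        (fun τ : ℝ => (τ ^ (α * k + β - 1) * Real.exp (-(s * τ))) *
        (Real.Gamma (α * k + β))⁻¹) (Ioi 0) := by
      intro τ hτ
      have h5 : (0 : ℝ) ≤ τ ^ (α * k + β - 1) * Real.exp (-(s * τ)) *
        (Real.Gamma (α * k + β))⁻¹ := by
        have h6 := Real.Gamma_pos_of_pos hpos
        have h7 : (0 : ℝ) < τ := hτ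
        positivity
      have h8 := e1 hτ
      simp only at h8 ⊢
      rw [h8, norm_mul, norm_pow, cc_norm, one_pow, mul_one, Complex.norm_real,
        Real.norm_of_nonneg h5]
    rw [setIntegral_congr_fun measurableSet_Ioi e2, integral_mul_const, hI, e0,
      mul_inv_cancel_right₀ hG]

lemma um_lap {α β s : ℝ} (hα : 0 < α) (hβ : 0 < β) (hs : 1 < s) :
    ∫ τ in Ioi (0 : ℝ), ((Real.exp (-(s * τ)) : ℝ) : ℂ) * um α β τ =
      (1 - cc α * ((s⁻¹ ^ α : ℝ) : ℂ))⁻¹ * ((s⁻¹ ^ β : ℝ) : ℂ) := by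
  have hs0 : 0 < s := by linarith
  have hq0 : 0 ≤ s⁻¹ ^ α := Real.rpow_nonneg (by positivity) _
  have hq1 : s⁻¹ ^ α < 1 := Real.rpow_lt_one (by positivity) (inv_lt_one_of_one_lt₀ hs) hα
  have h1 := hasSum_integral_of_summable_integral_norm
    (F := fun (k : ℕ) (τ : ℝ) => ((Real.exp (-(s * τ)) * τ ^ (β - 1) : ℝ) : ℂ) * et k α β τ)
    (μ := volume.restrict (Ioi (0 : ℝ))) (fun k => (et_lap k hα hβ hs0).1) (by
      simp only [(et_lap _ hα hβ hs0).2.2]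
      exact (summable_geometric_of_lt_one hq0 hq1).mul_right _)
  have h2 : ∀ τ : ℝ, ∑' k : ℕ, ((Real.exp (-(s * τ)) * τ ^ (β - 1) : ℝ) : ℂ) * et k α β τ =
      ((Real.exp (-(s * τ)) : ℝ) : ℂ) * um α β τ := fun τ => by
    rw [tsum_mul_left]
    unfold um EE
    push_cast
    ring
  simp only [h2, (et_lap _ hα hβ hs0).2.1] at h1
  have h3 : HasSum (fun k : ℕ => (cc α * ((s⁻¹ ^ α : ℝ) : ℂ)) ^ k * ((s⁻¹ ^ β : ℝ) : ℂ))
      ((1 - cc α * ((s⁻¹ ^ α : ℝ) : ℂ))⁻¹ * ((s⁻¹ ^ β : ℝ) : ℂ)) := by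
    apply HasSum.mul_right
    apply hasSum_geometric_of_norm_lt_one
    rw [norm_mul, cc_norm, one_mul, Complex.norm_real, Real.norm_of_nonneg hq0]
    exact hq1
  exact h1.unique h3

lemma um_lap2 {α β s : ℝ} (hα : 0 < α) (hβ : 0 < β) (hs : 1 < s) :
    IntegrableOn (fun τ : ℝ => ((Real.exp (-(s * τ)) : ℝ) : ℂ) * um α β τ) (Ioi 0) ∧
    ∫ τ in Ioi (0 : ℝ), ((Real.exp (-(s * τ)) : ℝ) : ℂ) * um α β τ =
      ((s⁻¹ : ℝ) : ℂ) * ph α (α - β + 1) (Real.log s : ℝ) := by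
  have hs0 : 0 < s := by linarith
  have h1 := um_lap hα hβ hs
  have hq0 : 0 ≤ s⁻¹ ^ α := Real.rpow_nonneg (by positivity) _
  have hq1 : s⁻¹ ^ α < 1 := Real.rpow_lt_one (by positivity) (inv_lt_one_of_one_lt₀ hs) hα
  have hne : (1 - cc α * ((s⁻¹ ^ α : ℝ) : ℂ)) ≠ 0 := by
    intro h
    have h3 : cc α * ((s⁻¹ ^ α : ℝ) : ℂ) = 1 := (sub_eq_zero.mp h).symm
    have h4 := congrArg norm h3
    rw [norm_mul, cc_norm, one_mul, Complex.norm_real, Real.norm_of_nonneg hq0, norm_one] at h4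
    linarith
  have hne2 : ((s⁻¹ ^ β : ℝ) : ℂ) ≠ 0 := by
    have : s⁻¹ ^ β ≠ 0 := (Real.rpow_pos_of_pos (by positivity) _).ne'
    exact_mod_cast this
  constructor
  · apply Integrable.of_integral_ne_zero
    rw [h1]
    exact mul_ne_zero (inv_ne_zero hne) hne2
  · rw [h1]
    set L := Real.log s with hL
    have e1 : s⁻¹ ^ α = Real.exp (-(α * L)) := by
      rw [Real.inv_rpow hs0.le, Real.rpow_def_of_pos hs0, ← Real.exp_neg, hL]
      ring_nf
    have e2 : s⁻¹ ^ β = Real.exp (-(β * L)) := by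
      rw [Real.inv_rpow hs0.le, Real.rpow_def_of_pos hs0, ← Real.exp_neg, hL]
      ring_nf
    have e3 : s⁻¹ = Real.exp (-L) := by
      rw [Real.exp_neg, Real.exp_log hs0]
    rw [e1] at hne
    rw [e1, e2, e3]
    unfold ph dn
    push_cast at hne ⊢
    have e4 : cexp (α * L) - cc α = cexp (α * L) * (1 - cc α * cexp (-(α * L))) := by
      have : cexp (α * L) * cexp (-(α * L)) = 1 := by rw [← Complex.exp_add]; simp
      linear_combination (cc α) * this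
    rw [e4, mul_inv, ← Complex.exp_neg]
    have e5 : cexp (-(L : ℂ)) * (cexp ((α - β + 1) * L) * (cexp (-(α * L)) *
        (1 - cc α * cexp (-(α * L)))⁻¹)) =
        (cexp (-(L : ℂ)) * cexp ((α - β + 1) * L) * cexp (-(α * L))) *
        (1 - cc α * cexp (-(α * L)))⁻¹ := by ring
    rw [e5, ← Complex.exp_add, ← Complex.exp_add, mul_comm]
    congr 2
    ring

end V1171.MLP
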