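import Pool.Agent.V1171.MLP.Ctr2
import Pool.Agent.V1171.MLP.Ser
import Pool.Agent.Helper945.LapU

set_option autoImplicit false

/-! Integral representation. -/

namespace V1171.MLP

open MeasureTheory Filter Topology Set Complex V1171.MLZ

lemma lap_c (f : ℝ → ℂ) (hc : ContinuousOn f (Ioi 0))
    (key : ∀ s : ℝ, 1 < s → IntegrableOn (fun t => ((Real.exp (-(s * t)) : ℝ) : ℂ) * f t) (Ioi 0) ∧
      ∫ t in Ioi (0 : ℝ), ((Real.exp (-(s * t)) : ℝ) : ℂ) * f t = 0) {t0 : ℝ} (ht0 : 0 < t0) :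
    f t0 = 0 := by
  have hn1 : ∀ n : ℕ, 0 < n → (1 : ℝ) < (n : ℝ) + 1 := fun n hn => by
    have : (0 : ℝ) < n := by exact_mod_cast hn
    linarith
  have hre := Pool.Agent.Helper945.LapU.laplace_unique (fun t => Real.exp (-t) * (f t).re)
    (ContinuousOn.mul (by fun_prop) (Complex.continuous_re.comp_continuousOn hc)) (by
      intro n hn
      have h3 := (key ((n : ℝ) + 1) (hn1 n hn)).1.re
      refine h3.congr (Eventually.of_forall fun t => ?_)
      simp only [RCLike.re_eq_complex_re]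
      rw [Complex.re_ofReal_mul, ← mul_assoc, ← Real.exp_add]
      ring_nf) (by
      intro n hn
      obtain ⟨h3, h4⟩ := key ((n : ℝ) + 1) (hn1 n hn)
      have h5 := integral_re h3
      simp only [RCLike.re_eq_complex_re] at h5
      rw [h4] at h5
      refine Eq.trans ?_ h5
      apply integral_congr_ae
      refine Eventually.of_forall fun t => ?_
      simp only
      rw [Complex.re_ofReal_mul, ← mul_assoc, ← Real.exp_add]
      ring_nf) t0 ht0
  have him := Pool.Agent.Helper945.LapU.laplace_unique (fun t => Real.exp (-t) * (f t).im)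
    (ContinuousOn.mul (by fun_prop) (Complex.continuous_im.comp_continuousOn hc)) (by
      intro n hn
      have h3 := (key ((n : ℝ) + 1) (hn1 n hn)).1.im
      refine h3.congr (Eventually.of_forall fun t => ?_)
      simp only [RCLike.im_eq_complex_im]
      rw [Complex.im_ofReal_mul, ← mul_assoc, ← Real.exp_add]
      ring_nf) (by
      intro n hn
      obtain ⟨h3, h4⟩ := key ((n : ℝ) + 1) (hn1 n hn)
      have h5 := integral_im h3
      simp only [RCLike.im_eq_complex_im] at h5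
      rw [h4] at h5
      refine Eq.trans ?_ h5
      apply integral_congr_ae
      refine Eventually.of_forall fun t => ?_
      simp only
      rw [Complex.im_ofReal_mul, ← mul_assoc, ← Real.exp_add]
      ring_nf) t0 ht0
  have he := (Real.exp_pos (-t0)).ne'
  apply Complex.ext
  · rcases mul_eq_zero.mp hre with h | h
    · exact absurd h he
    · exact h
  · rcases mul_eq_zero.mp him with h | h
    · exact absurd h he
    · exact h

noncomputable def ak (k : ℝ → ℂ) (τ : ℝ) : ℂ := ∫ y, ((Real.exp (-(τ * Real.exp y)) : ℝ) : ℂ) * k y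

lemma ak_prod {k : ℝ → ℂ} (hk : Integrable k) {s : ℝ} (hs : 0 < s) :
    Integrable (Function.uncurry fun (τ y : ℝ) =>
      ((Real.exp (-(s * τ)) : ℝ) : ℂ) * (((Real.exp (-(τ * Real.exp y)) : ℝ) : ℂ) * k y))
      ((volume.restrict (Ioi (0 : ℝ))).prod volume) := by
  have hb : Integrable (fun p : ℝ × ℝ => ((Real.exp (-(s * p.1)) : ℝ) : ℂ) * k p.2)
      ((volume.restrict (Ioi (0 : ℝ))).prod volume) := by
    have h3 : Integrable (fun τ : ℝ => ((Real.exp (-(s * τ)) : ℝ) : ℂ))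
        (volume.restrict (Ioi (0 : ℝ))) := by
      have h' : Integrable (fun τ : ℝ => Real.exp (-(s * τ))) (volume.restrict (Ioi (0 : ℝ))) := by
        have h := integrableOn_exp_mul_Ioi (a := -s) (by linarith) 0
        refine Integrable.congr h (Eventually.of_forall fun y => ?_)
        simp only [neg_mul]
      exact h'.ofReal
    exact h3.mul_prod hk
  have h4 : ∀ᵐ p : ℝ × ℝ ∂((volume.restrict (Ioi (0 : ℝ))).prod volume), p.1 ∈ Ioi (0 : ℝ) :=
    Measure.quasiMeasurePreserving_fst.ae (ae_restrict_mem measurableSet_Ioi)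
  have hb2 := hb.bdd_mul (c := 1) (f := fun p : ℝ × ℝ =>
    ((Real.exp (-(p.1 * Real.exp p.2)) : ℝ) : ℂ))
    (Continuous.aestronglyMeasurable (by
      apply Complex.continuous_ofReal.comp
      fun_prop)) (by
    filter_upwards [h4] with p hp
    rw [Complex.norm_real, Real.norm_of_nonneg (Real.exp_pos _).le, Real.exp_le_one_iff]
    have := mul_pos (mem_Ioi.mp hp) (Real.exp_pos p.2)
    linarith)
  refine hb2.congr (Eventually.of_forall fun p => ?_)
  simp only [Function.uncurry]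
  ring

lemma ak_lap {k : ℝ → ℂ} (hk : Integrable k) {s : ℝ} (hs : 0 < s) :
    IntegrableOn (fun τ : ℝ => ((Real.exp (-(s * τ)) : ℝ) : ℂ) * ak k τ) (Ioi 0) ∧
    ∫ τ in Ioi (0 : ℝ), ((Real.exp (-(s * τ)) : ℝ) : ℂ) * ak k τ =
      ((s⁻¹ : ℝ) : ℂ) * ∫ y, k y * (((1 + Real.exp (y - Real.log s))⁻¹ : ℝ) : ℂ) := by
  have hp := ak_prod hk hs
  have e1 : ∀ τ : ℝ, ((Real.exp (-(s * τ)) : ℝ) : ℂ) * ak k τ =
      ∫ y, ((Real.exp (-(s * τ)) : ℝ) : ℂ) * (((Real.exp (-(τ * Real.exp y)) : ℝ) : ℂ) * k y) := by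
    intro τ
    unfold ak
    rw [integral_const_mul]
  constructor
  · simp only [e1]
    exact hp.integral_prod_left
  · simp only [e1]
    rw [integral_integral_swap hp, ← integral_const_mul]
    apply integral_congr_ae
    refine Eventually.of_forall fun y => ?_
    simp only
    have hpos : 0 < s + Real.exp y := by positivity
    have e2 : ∀ τ : ℝ, ((Real.exp (-(s * τ)) : ℝ) : ℂ) *
        (((Real.exp (-(τ * Real.exp y)) : ℝ) : ℂ) * k y) =
        ((Real.exp (-(s + Real.exp y) * τ) : ℝ) : ℂ) * k y := by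
      intro τ
      rw [← mul_assoc, ← Complex.ofReal_mul, ← Real.exp_add]
      ring_nf
    simp only [e2]
    rw [integral_mul_const, integral_complex_ofReal, integral_exp_mul_Ioi (by linarith),
      Real.exp_sub, Real.exp_log hs]
    simp only [mul_zero, Real.exp_zero]
    have e3 : (-1 / -(s + Real.exp y) : ℝ) = s⁻¹ * (1 + Real.exp y / s)⁻¹ := by
      field_simp
    rw [e3]
    push_cast
    ring

lemma ak_cont {k : ℝ → ℂ} (hk : Integrable k) : ContinuousOn (ak k) (Ioi 0) := by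
  unfold ak
  apply continuousOn_of_dominated (bound := fun y => ‖k y‖)
  · intro τ _
    apply AEStronglyMeasurable.mul _ hk.aestronglyMeasurable
    apply Continuous.aestronglyMeasurable
    apply Complex.continuous_ofReal.comp
    fun_prop
  · intro τ hτ
    refine Eventually.of_forall fun y => ?_
    rw [norm_mul, Complex.norm_real, Real.norm_of_nonneg (Real.exp_pos _).le]
    apply mul_le_of_le_one_left (norm_nonneg _)
    rw [Real.exp_le_one_iff]
    have := mul_pos (mem_Ioi.mp hτ) (Real.exp_pos y)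
    linarith
  · exact hk.norm
  · refine Eventually.of_forall fun y => ?_
    apply ContinuousOn.mul _ continuousOn_const
    apply Continuous.continuousOn
    apply Complex.continuous_ofReal.comp
    fun_prop

lemma pole_lap {p : ℂ} (hp : ‖p‖ = 1) {s : ℝ} (hs : 1 < s) :
    IntegrableOn (fun τ : ℝ => ((Real.exp (-(s * τ)) : ℝ) : ℂ) * cexp (p * τ)) (Ioi 0) ∧
    ∫ τ in Ioi (0 : ℝ), ((Real.exp (-(s * τ)) : ℝ) : ℂ) * cexp (p * τ) = (s - p)⁻¹ := by
  have hre : (p - s).re < 0 := by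
    have := Complex.re_le_norm p
    rw [hp] at this
    simp
    linarith
  have e1 : ∀ τ : ℝ, ((Real.exp (-(s * τ)) : ℝ) : ℂ) * cexp (p * τ) = cexp ((p - s) * τ) := by
    intro τ
    rw [Complex.ofReal_exp, ← Complex.exp_add]
    congr 1
    push_cast
    ring
  simp only [e1]
  refine ⟨integrableOn_exp_mul_complex_Ioi hre 0, ?_⟩
  rw [integral_exp_mul_complex_Ioi hre]
  simp only [ofReal_zero, mul_zero, Complex.exp_zero]
  rw [← neg_sub (s : ℂ) p, div_neg, neg_div, neg_neg, one_div]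

lemma um_cont {α β : ℝ} (h1 : 1 ≤ α) (h2 : α ≤ 2) (hβ : 1 ≤ β) (hβ2 : β ≤ 2) :
    ContinuousOn (um α β) (Ioi 0) := by
  intro t ht
  have ht' : (0 : ℝ) < t := ht
  have h3 := EE_cont (M := t + 1) (by linarith)
  have h4 : ContinuousOn (fun t' : ℝ => EE α β t') (Icc 0 (t + 1)) :=
    h3.comp (f := fun t' : ℝ => (α, β, t')) (by fun_prop)
      (fun t' ht' => ⟨⟨h1, h2⟩, ⟨hβ, hβ2⟩, ht'⟩)
  have h5 : ContinuousAt (fun t' : ℝ => EE α β t') t :=
    h4.continuousAt (Icc_mem_nhds ht (by linarith))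
  apply ContinuousAt.continuousWithinAt
  unfold um
  apply ContinuousAt.mul _ h5
  apply Complex.continuous_ofReal.continuousAt.comp
  exact Real.continuousAt_rpow_const _ _ (Or.inl ht'.ne')

/-- the representation with an abstract kernel -/
theorem um_rep {α β θ : ℝ} (h1 : 7 / 4 ≤ α) (h2 : α < 2)
    (hθ : α * (θ + Real.pi / 2) = 2 * Real.pi) (hβ : 1 ≤ β) (hβ2 : β ≤ 2)
    (hint : Integrable (kq α (α - β + 1))) {τ : ℝ} (hτ : 0 < τ) :
    um α β τ = cexp (((α - β + 1 : ℝ) : ℂ) * (θ * I)) * (α * cc α)⁻¹ * cexp (cexp (θ * I) * τ) +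
      cexp (((α - β + 1 : ℝ) : ℂ) * zm) * (α * cc α)⁻¹ * cexp (cexp zm * τ) -
      (2 * Real.pi * I)⁻¹ * ak (kq α (α - β + 1)) τ := by
  have hpi := Real.pi_pos
  set γ := α - β + 1 with hγ
  set a1 := cexp ((γ : ℂ) * (θ * I)) * (α * cc α)⁻¹ with ha1
  set a0 := cexp ((γ : ℂ) * zm) * (α * cc α)⁻¹ with ha0
  set p1 := cexp (θ * I) with hp1
  set p0 := cexp zm with hp0
  have hn1 : ‖p1‖ = 1 := Complex.norm_exp_ofReal_mul_I θ
  have hn0 : ‖p0‖ = 1 := by
    rw [hp0, Complex.norm_exp, zm_re, Real.exp_zero]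
  have key : ∀ s : ℝ, 1 < s →
      IntegrableOn (fun t : ℝ => ((Real.exp (-(s * t)) : ℝ) : ℂ) * (um α β t -
        (a1 * cexp (p1 * t) + a0 * cexp (p0 * t) - (2 * Real.pi * I)⁻¹ * ak (kq α γ) t)))
        (Ioi 0) ∧
      ∫ t in Ioi (0 : ℝ), ((Real.exp (-(s * t)) : ℝ) : ℂ) * (um α β t -
        (a1 * cexp (p1 * t) + a0 * cexp (p0 * t) - (2 * Real.pi * I)⁻¹ * ak (kq α γ) t)) = 0 := by
    intro s hs
    have hs0 : 0 < s := by linarith
    obtain ⟨u1, u2⟩ := um_lap2 (α := α) (β := β) (by linarith) (by linarith) hs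
    obtain ⟨b1, b2⟩ := pole_lap hn1 hs
    obtain ⟨c1, c2⟩ := pole_lap hn0 hs
    obtain ⟨d1, d2⟩ := ak_lap hint hs0
    have b1' : Integrable (fun t : ℝ => a1 * (((Real.exp (-(s * t)) : ℝ) : ℂ) * cexp (p1 * t)))
      (volume.restrict (Ioi 0)) := b1.const_mul _
    have c1' : Integrable (fun t : ℝ => a0 * (((Real.exp (-(s * t)) : ℝ) : ℂ) * cexp (p0 * t)))
      (volume.restrict (Ioi 0)) := c1.const_mul _
    have d1' : Integrable (fun t : ℝ => (2 * Real.pi * I)⁻¹ *
      (((Real.exp (-(s * t)) : ℝ) : ℂ) * ak (kq α γ) t)) (volume.restrict (Ioi 0)) :=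
      d1.const_mul _
    have bc : Integrable (fun t : ℝ => a1 * (((Real.exp (-(s * t)) : ℝ) : ℂ) * cexp (p1 * t)) +
      a0 * (((Real.exp (-(s * t)) : ℝ) : ℂ) * cexp (p0 * t))) (volume.restrict (Ioi 0)) :=
      b1'.add c1'
    have bcd : Integrable (fun t : ℝ => a1 * (((Real.exp (-(s * t)) : ℝ) : ℂ) * cexp (p1 * t)) +
      a0 * (((Real.exp (-(s * t)) : ℝ) : ℂ) * cexp (p0 * t)) - (2 * Real.pi * I)⁻¹ *
      (((Real.exp (-(s * t)) : ℝ) : ℂ) * ak (kq α γ) t)) (volume.restrict (Ioi 0)) :=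
      bc.sub d1'
    have e1 : ∀ t : ℝ, ((Real.exp (-(s * t)) : ℝ) : ℂ) * (um α β t -
        (a1 * cexp (p1 * t) + a0 * cexp (p0 * t) - (2 * Real.pi * I)⁻¹ * ak (kq α γ) t)) =
        ((Real.exp (-(s * t)) : ℝ) : ℂ) * um α β t -
        (a1 * (((Real.exp (-(s * t)) : ℝ) : ℂ) * cexp (p1 * t)) +
        a0 * (((Real.exp (-(s * t)) : ℝ) : ℂ) * cexp (p0 * t)) - (2 * Real.pi * I)⁻¹ *
        (((Real.exp (-(s * t)) : ℝ) : ℂ) * ak (kq α γ) t)) := by
      intro t
      ring
    simp only [e1]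
    refine ⟨Integrable.sub u1 bcd, ?_⟩
    rw [integral_sub u1 bcd, integral_sub bc d1', integral_add b1' c1', integral_const_mul,
      integral_const_mul, integral_const_mul, u2, b2, c2, d2,
      contour_c h1 h2 hθ (by linarith) (by linarith) hint (Real.log s)]
    have hsc : (s : ℂ) ≠ 0 := by exact_mod_cast hs0.ne'
    have hK : ∀ p z : ℂ, cexp z = p → ‖p‖ = 1 → (Kd (Real.log s : ℝ) z)⁻¹ = s * (s - p)⁻¹ := by
      intro p z hz hp
      unfold Kd
      rw [Complex.exp_sub, hz, ← Complex.ofReal_exp, Real.exp_log hs0, one_sub_div hsc, inv_div,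
        div_eq_mul_inv]
    rw [hK p1 _ hp1.symm hn1, hK p0 _ hp0.symm hn0]
    have hpic : (Real.pi : ℂ) ≠ 0 := by exact_mod_cast hpi.ne'
    have hI := I_ne_zero
    rw [← ha1, ← ha0]
    have hs1 : (s : ℂ)⁻¹ * s = 1 := inv_mul_cancel₀ hsc
    push_cast
    have e2 : (2 * (Real.pi : ℂ) * I)⁻¹ * ((s : ℂ)⁻¹ * (I * (2 * Real.pi *
        (s * (s - p1)⁻¹ * a1 + s * (s - p0)⁻¹ * a0 - ph α γ (Real.log s : ℝ))))) =
        ((s : ℂ)⁻¹ * s) * ((s - p1)⁻¹ * a1 + (s - p0)⁻¹ * a0) -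
          (s : ℂ)⁻¹ * ph α γ (Real.log s : ℝ) := by
      field_simp
    rw [e2, hs1]
    ring
  have hcont : ContinuousOn (fun t : ℝ => um α β t -
        (a1 * cexp (p1 * t) + a0 * cexp (p0 * t) - (2 * Real.pi * I)⁻¹ * ak (kq α γ) t))
        (Ioi 0) := by
    have e3 := um_cont (by linarith) h2.le hβ hβ2
    have e4 := ak_cont hint
    fun_prop
  have h := lap_c _ hcont key hτ
  exact sub_eq_zero.mp h

end V1171.MLP
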